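import Mathlib

set_option autoImplicit false
set_option linter.unusedSimpArgs false

/-!
# The action of a group on an elementary abelian normal `2`-subgroup, in additive notation
-/

namespace Pool.Agent.V5helper30.OP

/-- the action of a group on an abelian normal subgroup, in additive notation -/
theorem exists_act {F : Type} [Group F] (V : Subgroup F) [hV : V.Normal]
    (hab : ∀ v ∈ V, ∀ w ∈ V, v * w = w * v) :
    ∃ (M : Type) (_ : AddCommGroup M) (e : M ≃ V) (Φ : F →* AddMonoid.End M),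
      (∀ a b : M, e (a + b) = e a * e b) ∧
      (∀ (g : F) (a : M), ((e (Φ g a) : V) : F) = g * (e a : F) * g⁻¹) := by
  let inst : CommGroup V :=
    { (inferInstance : Group V) with
      mul_comm := fun a b => Subtype.ext (hab a a.2 b b.2) }
  let Φ : F →* AddMonoid.End (Additive V) :=
    { toFun := fun g => MonoidHom.toAdditive ((MulAut.conjNormal g : MulAut V) : V →* V)
      map_one' := by
        refine AddMonoidHom.ext fun a => ?_
        apply Additive.toMul.injective
        apply Subtype.ext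
        change (((MulAut.conjNormal (1 : F) : MulAut V) (Additive.toMul a) : V) : F) =
          ((Additive.toMul a : V) : F)
        rw [map_one]
        rfl
      map_mul' := by
        intro g h
        refine AddMonoidHom.ext fun a => ?_
        apply Additive.toMul.injective
        apply Subtype.ext
        change (((MulAut.conjNormal (g * h) : MulAut V) (Additive.toMul a) : V) : F) =
          (((MulAut.conjNormal g : MulAut V) ((MulAut.conjNormal h : MulAut V)
            (Additive.toMul a)) : V) : F)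
        rw [map_mul]
        rfl }
  refine ⟨Additive V, inferInstance, Additive.toMul, Φ, fun a b => rfl, fun g a => ?_⟩
  change (((MulAut.conjNormal g : MulAut V) (Additive.toMul a) : V) : F) = _
  rw [MulAut.conjNormal_apply]

section ring

variable {A : Type} [Ring A] {N : Type} [AddCommGroup N] [Module A N]

/-- in characteristic two, for `φ` of odd order -/
theorem ker_two (h2 : (1 : A) + 1 = 0) {φ : A} {k : ℕ} (hk : ¬ 2 ∣ k) (hφ : φ ^ k = 1) {x : N}
    (h : (φ - 1) • ((φ - 1) • x) = 0) : (φ - 1) • x = 0 := by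
  have e : φ ^ 2 • x = x := by
    have h1 : (φ - 1) * (φ - 1) = φ ^ 2 - 1 + (1 + 1) * (1 - φ) := by noncomm_ring
    rw [h2, zero_mul, add_zero] at h1
    rw [← mul_smul, h1, sub_smul, one_smul, sub_eq_zero] at h
    exact h
  have e2 : ∀ j : ℕ, φ ^ (2 * j) • x = x := by
    intro j
    induction j with
    | zero => simp
    | succ j ih =>
      rw [mul_add, mul_one, pow_add, mul_smul, e, ih]
  obtain ⟨j, hj⟩ : ∃ j, k = 2 * j + 1 := ⟨k / 2, by omega⟩
  rw [hj, pow_succ'] at hφ
  have h5 : φ • x = x := by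
    have h6 : (φ * φ ^ (2 * j)) • x = x := by rw [hφ, one_smul]
    rw [mul_smul, e2] at h6
    exact h6
  rw [sub_smul, one_smul, h5, sub_self]

theorem ker_two3 (h2 : (1 : A) + 1 = 0) {φ : A} {k : ℕ} (hk : ¬ 2 ∣ k) (hφ : φ ^ k = 1) {x : N}
    (h : (φ - 1) • ((φ - 1) • ((φ - 1) • x)) = 0) : (φ - 1) • x = 0 :=
  ker_two h2 hk hφ (ker_two h2 hk hφ h)

/-- an involution `ζ` inverting `φ` of odd order, with `(φ - 1) (1 - ζ) = 0` -/
theorem det_ring (h2 : (1 : A) + 1 = 0) {φ φ' ζ : A} {k : ℕ} (hk : ¬ 2 ∣ k) (hφ : φ ^ k = 1)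
    (h1 : φ * φ' = 1) (h1' : φ' * φ = 1) (hζ : ζ * ζ = 1) (hinv : ζ * φ * ζ = φ')
    (h : (φ - 1) * (1 - ζ) = 0) : φ = 1 := by
  have e1 : (φ - 1) * ζ = φ - 1 := by
    have : (φ - 1) * (1 - ζ) = (φ - 1) - (φ - 1) * ζ := by noncomm_ring
    rw [this, sub_eq_zero] at h
    exact h.symm
  have e2 : ζ * (φ - 1) = - (φ' * (φ - 1)) := by
    calc ζ * (φ - 1) = ζ * (φ - 1) * (ζ * ζ) := by rw [hζ, mul_one]
      _ = (ζ * φ * ζ - ζ * ζ) * ζ := by noncomm_ring
      _ = (φ' - φ' * φ) * ζ := by rw [hinv, hζ, h1']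
      _ = - (φ' * ((φ - 1) * ζ)) := by noncomm_ring
      _ = - (φ' * (φ - 1)) := by rw [e1]
  have e3 : (φ - 1) * (φ - 1) = - ((φ - 1) * (φ' * (φ - 1))) := by
    calc (φ - 1) * (φ - 1) = (φ - 1) * ζ * (φ - 1) := by rw [e1]
      _ = (φ - 1) * (ζ * (φ - 1)) := by rw [mul_assoc]
      _ = - ((φ - 1) * (φ' * (φ - 1))) := by rw [e2, mul_neg]
  have e4 : (φ + 1) * ((φ - 1) * (φ - 1)) = 0 := by
    have e5 : φ * ((φ - 1) * (φ' * (φ - 1))) = (φ - 1) * (φ - 1) := by
      have : φ * ((φ - 1) * (φ' * (φ - 1))) = (φ - 1) * ((φ * φ') * (φ - 1)) := by noncomm_ring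
      rw [this, h1, one_mul]
    have e6 : φ * ((φ - 1) * (φ - 1)) = - ((φ - 1) * (φ - 1)) := by
      conv_lhs => rw [e3]
      rw [mul_neg, e5]
    rw [add_mul, one_mul, e6, neg_add_cancel]
  have e6 : φ + 1 = φ - 1 := by
    have : φ + 1 = φ - 1 + (1 + 1) := by abel
    rw [this, h2, add_zero]
  rw [e6] at e4
  have e7 := ker_two3 (N := A) (x := (1 : A)) h2 hk hφ (by
    rw [smul_eq_mul, smul_eq_mul, smul_eq_mul, mul_one]
    exact e4)
  rw [smul_eq_mul, mul_one, sub_eq_zero] at e7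
  exact e7

/-- few fixed points for two elements with central commutator -/
theorem alg_ring (h2 : (1 : A) + 1 = 0)
    {σ ρ γ σ' ρ' γ' : A} {k : ℕ} (hk : ¬ 2 ∣ k) (hγ : γ ^ k = 1)
    (hσ' : σ' * σ = 1) (hρ' : ρ' * ρ = 1) (hγ' : γ' * γ = 1)
    (c1 : γ * σ = σ * γ) (c2 : γ * ρ = ρ * γ) (c3 : σ * ρ = ρ * σ * γ)
    (h : ∀ v : N, ∃ a b : N, (γ - 1) • v = a + b ∧ σ • a = a ∧ ρ • b = b) (v : N) :
    (γ - 1) • v = 0 := by
  obtain ⟨T, hT⟩ : ∃ T, T = γ - 1 := ⟨_, rfl⟩
  have d1 : T * σ = σ * T := by rw [hT, sub_mul, mul_sub, c1, one_mul, mul_one]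
  have d2 : T * ρ = ρ * T := by rw [hT, sub_mul, mul_sub, c2, one_mul, mul_one]
  have d3 : T * γ = γ * T := by rw [hT, sub_mul, mul_sub, one_mul, mul_one]
  have r1 : ∀ x : N, σ • γ • x = γ • σ • x := fun x => by rw [← mul_smul, ← c1, mul_smul]
  have r2 : ∀ x : N, σ • T • x = T • σ • x := fun x => by rw [← mul_smul, ← d1, mul_smul]
  have r3 : ∀ x : N, σ • ρ • x = ρ • γ • σ • x := fun x => by
    rw [← mul_smul, c3, mul_smul, mul_smul, r1]
  have r4 : ∀ x : N, γ • ρ • x = ρ • γ • x := fun x => by rw [← mul_smul, c2, mul_smul]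
  have r5 : ∀ x : N, T • ρ • x = ρ • T • x := fun x => by rw [← mul_smul, d2, mul_smul]
  have r6 : ∀ x : N, T • γ • x = γ • T • x := fun x => by rw [← mul_smul, d3, mul_smul]
  have kt : ∀ x : N, T • T • x = 0 → T • x = 0 := fun x hx => by
    rw [hT] at hx ⊢
    exact ker_two h2 hk hγ hx
  have h' : ∀ v : N, ∃ a b : N, T • v = a + b ∧ σ • a = a ∧ ρ • b = b := by
    intro v
    rw [hT]
    exact h v
  have iγ : ∀ x : N, γ • x = 0 → x = 0 := fun x hx => by
    have := congrArg (fun y => γ' • y) hx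
    simp only [smul_zero] at this
    rwa [← mul_smul, hγ', one_smul] at this
  have iρ : ∀ x : N, ρ • x = 0 → x = 0 := fun x hx => by
    have := congrArg (fun y => ρ' • y) hx
    simp only [smul_zero] at this
    rwa [← mul_smul, hρ', one_smul] at this
  have iσ : ∀ x : N, σ • x = 0 → x = 0 := fun x hx => by
    have := congrArg (fun y => σ' • y) hx
    simp only [smul_zero] at this
    rwa [← mul_smul, hσ', one_smul] at this
  have key : ∀ a : N, σ • a = a → T • a = 0 := by
    intro a ha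
    obtain ⟨a', b', h1, h3, h4⟩ := h' (ρ • a)
    -- the three elements
    obtain ⟨x2, hx2⟩ : ∃ x2, x2 = T • ρ • ρ • a := ⟨_, rfl⟩
    obtain ⟨x1, hx1⟩ : ∃ x1, x1 = T • ρ • a + ρ • a' := ⟨_, rfl⟩
    have e1 : x2 = x1 - a' := by
      have h5 : T • ρ • ρ • a = ρ • a' + b' := by
        rw [r5, h1, smul_add, h4]
      rw [hx2, h5, hx1, h1]
      abel
    have e2 : σ • x2 = γ • γ • x2 := by
      rw [hx2]
      simp only [r1, r2, r3, r4, r5, r6, ha]
    have e3 : σ • x1 = γ • x1 := by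
      rw [hx1, smul_add, smul_add]
      simp only [r1, r2, r3, r4, r5, r6, ha, h3]
    have e4 : γ • γ • x2 = γ • x1 - a' := by
      rw [← e2, ← e3]
      conv_lhs => rw [e1]
      rw [smul_sub, h3]
    have e5 : γ • γ • γ • γ • x2 = γ • γ • x1 - a' := by
      have h5 : σ • (γ • γ • x2) = σ • (γ • x1 - a') := by rw [e4]
      rw [smul_sub, h3, r1, r1, e2, r1, e3] at h5
      exact h5
    have e6 : T • T • T • x2 = 0 := by
      apply iγ
      have h6 : γ * (T * (T * T)) =
          γ * γ * γ * γ - γ * γ - γ * γ * γ + γ - (1 + 1) * (γ * γ * γ - γ * γ - γ * γ + γ) := by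
        rw [hT]
        noncomm_ring
      rw [h2, zero_mul, sub_zero] at h6
      have h6' := congrArg (fun y => y • x2) h6
      simp only [add_smul, sub_smul, mul_smul] at h6'
      rw [h6']
      have h7 : γ • γ • γ • x2 = γ • γ • x1 - γ • a' := by rw [e4, smul_sub]
      have h8 : γ • x2 = γ • x1 - γ • a' := by rw [e1, smul_sub]
      rw [e5, h7, e4, h8]
      abel
    have e7 := kt _ (kt _ e6)
    rw [hx2] at e7
    have e8 := kt _ e7
    rw [r5, r5] at e8
    exact iρ _ (iρ _ e8)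
  have key2 : ∀ v : N, ρ • T • T • v = T • T • v := by
    intro v
    obtain ⟨a, b, h1, h3, h4⟩ := h' v
    rw [h1, smul_add, key a h3, zero_add, ← r5, h4]
  have e1 : T • T • T • v = 0 := by
    have h5 := key2 (γ • σ • v)
    have h6 : ρ • T • T • γ • σ • v = σ • ρ • T • T • v := by
      simp only [r1, r2, r3, r4, r5, r6]
    have h7 : T • T • γ • σ • v = σ • γ • T • T • v := by
      simp only [r1, r2, r3, r4, r5, r6]
    rw [h6, h7, key2] at h5
    have h8 : σ • (T • T • T • v) = 0 := by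
      have h9 : T • T • T • v = γ • T • T • v - T • T • v := by
        conv_lhs => rw [hT]
        rw [sub_smul, one_smul, ← hT]
      rw [h9, smul_sub, ← h5, sub_self]
    exact iσ _ h8
  rw [← hT]
  exact kt _ (kt _ e1)

end ring

end Pool.Agent.V5helper30.OP
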