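import Mathlib
import Pool.Agent.V5helper30.OP.Act

set_option autoImplicit false

/-!
# The action of a group on an elementary abelian normal `2`-subgroup, continued
-/

namespace Pool.Agent.V5helper30.OP

/-- the action of a group on an elementary abelian normal `2`-subgroup -/
theorem act2 {F : Type} [Group F] (V : Subgroup F) [hV : V.Normal]
    (hab : ∀ v ∈ V, ∀ w ∈ V, v * w = w * v) (hpow : ∀ v ∈ V, v ^ 2 = 1) :
    ∃ (M : Type) (_ : AddCommGroup M) (e : M → F) (Φ : F →* AddMonoid.End M),
      Function.Injective e ∧ (∀ a : M, e a ∈ V) ∧ (∀ v ∈ V, ∃ a, e a = v) ∧ e 0 = 1 ∧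
      (∀ a b : M, e (a + b) = e a * e b) ∧ (∀ a b : M, e (a - b) = e a * (e b)⁻¹) ∧
      (∀ (g : F) (a : M), e (Φ g a) = g * e a * g⁻¹) ∧ (∀ v ∈ V, Φ v = 1) ∧
      ((1 : AddMonoid.End M) + 1 = 0) := by
  obtain ⟨M, inst, e, Φ, he, hΦ⟩ := exists_act V hab
  have e0 : e 0 = 1 := by
    have h := he 0 0
    rw [add_zero] at h
    exact left_eq_mul.1 h
  have esub : ∀ a b : M, e (a - b) = e a * (e b)⁻¹ := by
    intro a b
    rw [eq_mul_inv_iff_mul_eq, ← he, sub_add_cancel]
  refine ⟨M, inst, fun a => (e a : F), Φ, fun a b h => e.injective (Subtype.ext h),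
    fun a => (e a).2, fun v hv => ⟨e.symm ⟨v, hv⟩, by simp⟩, by simp only [e0]; rfl,
    fun a b => by simp only [he]; rfl, fun a b => by simp only [esub]; rfl, hΦ, fun v hv => ?_, ?_⟩
  · refine AddMonoidHom.ext fun a => ?_
    apply e.injective
    apply Subtype.ext
    have h := hΦ v a
    rw [hab v hv _ (e a).2, mul_inv_cancel_right] at h
    exact h
  · refine AddMonoidHom.ext fun a => ?_
    apply e.injective
    change e (a + a) = e 0
    rw [he, e0]
    apply Subtype.ext
    have := hpow _ (e a).2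
    rw [pow_two] at this
    exact this

end Pool.Agent.V5helper30.OP
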