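import Mathlib
import Pool.Agent.N6.PgD
import Pool.Agent.V5helper30.OP.Act2

set_option autoImplicit false

/-!
# Detection of the involutions of `O_{2',2}` by elements of odd prime power order
-/

namespace Pool.Agent.V5helper30.OP

open Pool.Agent.H32BU Pool.Agent.W629 Pool.Agent.TH69.Mtn Pool.Agent.TH69.Od Pool.Agent.TH69.Og
open Pool.Agent.TH69.Oh Pool.Agent.TH69.Ok Pool.Agent.TH69.Pq Pool.Agent.N6.Pf

universe u

/-- elements of odd prime power order (and `1`) -/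
def OPP {G : Type u} [Group G] (y : G) : Prop := ∃ s k : ℕ, s.Prime ∧ s ≠ 2 ∧ y ^ s ^ k = 1

/-- fixed vectors of a power prime to the order -/
theorem fix_of_pow {M : Type} [AddCommGroup M] {φ : AddMonoid.End M} {K N : ℕ} (hK : φ ^ K = 1)
    (hNK : Nat.Coprime N K) {a : M} (h : (φ ^ N) a = a) : φ a = a := by
  obtain ⟨j, hj⟩ := exists_pow_eq_self_of_coprime (n := N) (x := φ)
    (Nat.Coprime.coprime_dvd_right (orderOf_dvd_of_pow_eq_one hK) hNK)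
  have h1 : ∀ i : ℕ, ((φ ^ N) ^ i) a = a := by
    intro i
    induction i with
    | zero => rw [pow_zero]; rfl
    | succ i ih =>
      rw [pow_succ]
      change ((φ ^ N) ^ i) ((φ ^ N) a) = a
      rw [h, ih]
  have h2 := h1 j
  rw [hj] at h2
  exact h2

theorem det_conf {α m : ℕ} (hm : ¬ 2 ∣ m) {F : Type} [Group F]
    (hF : ∀ x : F, x ^ (2 ^ α * m) = 1) {z : F} (hz : z * z = 1)
    (h : ∀ f : F, OPP f → TT (2 ^ α) m (c2 z f) z) (V L : Subgroup F) (hV : V.Normal)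
    (hL : L.Normal) (hVL : V ≤ L) (hab : ∀ v ∈ V, ∀ w ∈ V, v * w = w * v)
    (hpow : ∀ v ∈ V, v ^ 2 = 1) (hLm : ∀ x ∈ L, x ^ m ∈ V)
    (hC : ∀ x ∈ L, (∀ v ∈ V, x * v = v * x) → x ∈ V) (s : F) (hs : s ∈ L) :
    z * s * z⁻¹ * s⁻¹ ∈ V := by
  have hm0 : m ≠ 0 := by
    rintro rfl
    exact hm (dvd_zero _)
  have hn0 : 2 ^ α * m ≠ 0 := Nat.mul_ne_zero (pow_ne_zero _ two_ne_zero) hm0
  have h2m : Nat.Coprime 2 m := (Nat.Prime.coprime_iff_not_dvd Nat.prime_two).2 hm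
  have hz' : z⁻¹ = z := inv_eq_of_mul_eq_one_left hz
  by_contra hcon
  obtain ⟨c, hc⟩ : ∃ c, c = s⁻¹ * (z * s * z⁻¹) := ⟨_, rfl⟩
  have hcL : c ∈ L := by
    rw [hc]
    exact mul_mem (inv_mem hs) (hL.conj_mem s hs z)
  have hcz : z * c * z⁻¹ = c⁻¹ := by
    have e : z * c * z⁻¹ = z * s⁻¹ * (z * s) * (z⁻¹ * z⁻¹) := by rw [hc]; group
    have e2 : z⁻¹ * z⁻¹ = 1 := by rw [hz', hz]
    rw [e, e2, mul_one, hc]
    have e3 : z * s⁻¹ * (z * s) = z * s⁻¹ * (z * s) := rfl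
    rw [hz']
    simp only [mul_inv_rev, inv_inv, hz', mul_assoc]
  have hcV : c ∉ V := by
    intro h1
    apply hcon
    have h2 := hV.conj_mem c h1 s
    have e : s * c * s⁻¹ = z * s * z⁻¹ * s⁻¹ := by rw [hc]; group
    rwa [e] at h2
  obtain ⟨k, hk1, hk2⟩ : ∃ k : ℕ, PP (c ^ k) ∧ c ^ k ∉ V := by
    by_contra h1
    push Not at h1
    exact hcV (pp_mem V _ hn0 c (hF c) h1)
  obtain ⟨r, j, hr, hrj⟩ := hk1
  obtain ⟨f, hf⟩ : ∃ f, f = c ^ k := ⟨_, rfl⟩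
  rw [← hf] at hk2 hrj
  have hfL : f ∈ L := by
    rw [hf]
    exact pow_mem hcL k
  have hfz : z * f * z⁻¹ = f⁻¹ := by
    rw [hf, ← conj_pow, hcz, inv_pow]
  have hr2 : r ≠ 2 := by
    rintro rfl
    exact hk2 (mem_of_pow (Nat.Coprime.pow_left j h2m) hrj (hLm f hfL))
  have hK : ¬ 2 ∣ r ^ j := by
    intro h1
    have h2 := Nat.prime_two.dvd_of_dvd_pow h1
    exact hr2 ((Nat.prime_dvd_prime_iff_eq Nat.prime_two hr).1 h2).symm
  obtain ⟨M, inst, e, Φ, einj, eV, eS, e0, eadd, esub, eΦ, ΦV, hch⟩ := act2 V hab hpow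
  have hzz : Φ z * Φ z = 1 := by rw [← map_mul, hz, map_one]
  have hφK : (Φ f) ^ (r ^ j) = 1 := by rw [← map_pow, hrj, map_one]
  have hff : Φ f * Φ f⁻¹ = 1 := by rw [← map_mul, mul_inv_cancel, map_one]
  have hff' : Φ f⁻¹ * Φ f = 1 := by rw [← map_mul, inv_mul_cancel, map_one]
  have hinv : Φ z * Φ f * Φ z = Φ f⁻¹ := by
    rw [← map_mul, ← map_mul, ← hfz, hz']
  have key : (Φ f - 1) * (1 - Φ z) = 0 := by
    refine ker_two (N := AddMonoid.End M) hch hK hφK ?_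
    refine AddMonoidHom.ext fun v => ?_
    change (Φ f - 1) ((Φ f - 1) ((1 - Φ z) v)) = 0
    -- the element `κ`
    obtain ⟨v0, hv0⟩ : ∃ v0, v0 = e v := ⟨_, rfl⟩
    have hv0V : v0 ∈ V := by rw [hv0]; exact eV v
    obtain ⟨f1, hf1⟩ : ∃ f1, f1 = v0⁻¹ * f * v0 := ⟨_, rfl⟩
    obtain ⟨κ, hκ⟩ : ∃ κ, κ = f1 * (z * f1 * z⁻¹) := ⟨_, rfl⟩
    have hκe : e ((Φ f - 1) ((1 - Φ z) v)) = κ := by
      have e1 : e ((1 - Φ z) v) = v0 * (z * v0 * z⁻¹)⁻¹ := by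
        change e (v - Φ z v) = _
        rw [esub, eΦ, hv0]
      have e2 : e ((Φ f - 1) ((1 - Φ z) v)) = f * e ((1 - Φ z) v) * f⁻¹ * (e ((1 - Φ z) v))⁻¹ := by
        change e (Φ f ((1 - Φ z) v) - (1 - Φ z) v) = _
        rw [esub, eΦ]
      rw [e2, e1]
      obtain ⟨X, hX⟩ : ∃ X, X = f * (v0 * (z * v0 * z⁻¹)⁻¹) * f⁻¹ := ⟨_, rfl⟩
      have hvzV : z * v0 * z⁻¹ ∈ V := hV.conj_mem v0 hv0V z
      have hXV : X ∈ V := by
        rw [hX]
        exact hV.conj_mem _ (mul_mem hv0V (inv_mem hvzV)) f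
      have e3 : κ = v0⁻¹ * (X * (z * v0 * z⁻¹)) := by
        rw [hκ, hX, hf1]
        have e4 : z * (v0⁻¹ * f * v0) * z⁻¹ = (z * v0 * z⁻¹)⁻¹ * (z * f * z⁻¹) * (z * v0 * z⁻¹) := by
          group
        rw [e4, hfz]
        group
      rw [← hX, e3, hab _ (inv_mem hv0V) _ (mul_mem hXV hvzV)]
      group
    have hκV : κ ∈ V := by rw [← hκe]; exact eV _
    obtain ⟨A, B, hA, hB, hAm, hBP, hzB⟩ := h f1 ⟨r, j, hr, hr2, by
      rw [hf1]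
      exact conj_pow_one' hrj⟩
    have hzH : z ∈ c2 z f1 := Subgroup.subset_closure (by simp)
    have hfH : f1 ∈ c2 z f1 := Subgroup.subset_closure (by simp)
    have hκH : κ ∈ c2 z f1 := by
      rw [hκ]
      exact mul_mem hfH (mul_mem (mul_mem hzH hfH) (inv_mem hzH))
    obtain ⟨d, hd⟩ : ∃ d, d = (z * f1 * z⁻¹ * f1⁻¹) ^ 2 ^ α := ⟨_, rfl⟩
    have hdA : d ∈ A := by
      rw [hd]
      apply hBP
      have h7 := mul_mem hzB (hB f1 hfH _ (inv_mem hzB))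
      have e1 : z * (f1 * z⁻¹ * f1⁻¹) = z * f1 * z⁻¹ * f1⁻¹ := by group
      rwa [e1] at h7
    have hcomm : κ * d * κ⁻¹ * d⁻¹ = 1 := by
      have h1 : κ * d * κ⁻¹ * d⁻¹ ∈ A := mul_mem (hA κ hκH d hdA) (inv_mem hdA)
      have h2 : κ * d * κ⁻¹ * d⁻¹ ∈ V := by
        have h3 := mul_mem hκV (hV.conj_mem _ (inv_mem hκV) d)
        have e1 : κ * (d * κ⁻¹ * d⁻¹) = κ * d * κ⁻¹ * d⁻¹ := by group
        rwa [e1] at h3
      exact W629.eq_one_of_coprime h2m.symm (hAm _ h1) (hpow _ h2)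
    have hdκ : d * κ * d⁻¹ = κ := by
      rw [mul_inv_eq_one] at hcomm
      rw [mul_inv_eq_iff_eq_mul]
      rw [mul_inv_eq_iff_eq_mul] at hcomm
      exact hcomm.symm
    obtain ⟨a, ha⟩ : ∃ a, a = (Φ f - 1) ((1 - Φ z) v) := ⟨_, rfl⟩
    rw [← ha] at hκe ⊢
    have h1 : Φ d a = a := by
      apply einj
      rw [eΦ, hκe, hdκ]
    have hf1Φ : Φ f1 = Φ f := by
      rw [hf1, map_mul, map_mul, ΦV v0 hv0V, ΦV v0⁻¹ (inv_mem hv0V), one_mul, mul_one]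
    have hf1Φ' : Φ f1⁻¹ = Φ f⁻¹ := by
      have e1 : f1⁻¹ = v0⁻¹ * f⁻¹ * v0 := by rw [hf1]; group
      rw [e1, map_mul, map_mul, ΦV v0 hv0V, ΦV v0⁻¹ (inv_mem hv0V), one_mul, mul_one]
    have h3 : Φ d = (Φ f⁻¹) ^ (2 * 2 ^ α) := by
      rw [hd, map_pow, map_mul, map_mul, map_mul, hf1Φ, hf1Φ', hz', hinv, ← pow_two, ← pow_mul]
    rw [h3] at h1
    have h4 : (Φ f⁻¹) ^ (r ^ j) = 1 := by rw [← map_pow, inv_pow, hrj, inv_one, map_one]
    have h5 : Φ f⁻¹ a = a := by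
      refine fix_of_pow h4 (N := 2 * 2 ^ α) ?_ h1
      have h6 : Nat.Coprime 2 (r ^ j) := (Nat.Prime.coprime_iff_not_dvd Nat.prime_two).2 hK
      exact Nat.Coprime.mul_left h6 (Nat.Coprime.pow_left _ h6)
    have h6 : Φ f a = a := by
      have h7 : (Φ f * Φ f⁻¹) a = Φ f (Φ f⁻¹ a) := rfl
      rw [hff, h5] at h7
      exact h7.symm
    change Φ f a - a = 0
    rw [h6, sub_self]
  have h1 := det_ring hch hK hφK hff hff' hzz hinv key
  apply hk2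
  apply hC f hfL
  intro v hv
  obtain ⟨a, rfl⟩ := eS v hv
  have h2 := eΦ f a
  rw [h1] at h2
  have h3 : e a = f * e a * f⁻¹ := h2
  rw [eq_mul_inv_iff_mul_eq] at h3
  exact h3.symm

/-- involutions of `O_{2',2}` are detected by elements of odd prime power order -/
theorem detect {α m : ℕ} (hm : ¬ 2 ∣ m) {F : Type} [Group F] [Finite F]
    (hF : ∀ x : F, x ^ (2 ^ α * m) = 1) (hsol : Group.IsSolvable F) {z : F} (hz : z * z = 1)
    (hzα : z ^ 2 ^ α = 1)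
    (h : ∀ f : F, OPP f → TT (2 ^ α) m (c2 z f) z) : TT (2 ^ α) m ⊤ z := by
  have hm0 : m ≠ 0 := by
    rintro rfl
    exact hm (dvd_zero _)
  have hn0 : 2 ^ α * m ≠ 0 := Nat.mul_ne_zero (pow_ne_zero _ two_ne_zero) hm0
  have h2m : Nat.Coprime 2 m := (Nat.Prime.coprime_iff_not_dvd Nat.prime_two).2 hm
  refine ind_TTG Nat.prime_two h2m (fun F _ z => (∀ x : F, x ^ (2 ^ α * m) = 1) ∧ z * z = 1 ∧
    ∀ f : F, OPP f → TT (2 ^ α) m (c2 z f) z) ?_ ?_ (Nat.card F) F le_rfl hF hsol z hzα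
    ⟨hF, hz, h⟩
  · rintro F _ N _ z ⟨hF, hz, h⟩
    refine ⟨exp_quot hF N, by rw [← QuotientGroup.mk_mul, hz]; rfl, ?_⟩
    rintro f ⟨s, k, hs, hs2, hf⟩
    obtain ⟨y, hy, rfl⟩ := lift_pp (QuotientGroup.mk' N) (QuotientGroup.mk'_surjective N) hn0 hF
      hs hf
    have h1 := (h y ⟨s, _, hs, hs2, hy⟩).map (QuotientGroup.mk' N)
    rw [map_c2'] at h1
    exact h1
  · rintro F _ _ _ z _ ⟨hF, hz, h⟩ V L hV hL hVL hab hpow hLm hC s hs _
    exact det_conf hm hF hz h V L hV hL hVL hab hpow hLm hC s hs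

end Pool.Agent.V5helper30.OP
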