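import Mathlib
import Pool.Agent.V5helper30.OP.Cert
import Pool.Agent.V5helper30.OP.Det

set_option autoImplicit false

/-!
# One generator of odd prime order: involutions
-/

namespace Pool.Agent.V5helper30.OP

open Pool.Agent.H32BU Pool.Agent.W629 Pool.Agent.TH69.Mtn Pool.Agent.TH69.Od Pool.Agent.TH69.Og
open Pool.Agent.TH69.Oh Pool.Agent.TH69.Ok Pool.Agent.TH69.Pq Pool.Agent.N6.Pf

universe u

/-- elements of odd prime order (and `1`) -/
def OPr {G : Type u} [Group G] (y : G) : Prop := ∃ s : ℕ, s.Prime ∧ s ≠ 2 ∧ y ^ s = 1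

/-- the hypotheses on the group -/
structure So (n m α : ℕ) (G : Type) [Group G] : Prop where
  hm : ¬ 2 ∣ m
  hn : 2 ^ α * m = n
  exp : ∀ x : G, x ^ n = 1
  f1 : ∀ x y : G, OPr y → Finite (c2 x y) ∧ Group.IsSolvable (c2 x y)
  f2 : 2 ≤ α → ∀ x f : G, x ^ 2 ^ α = 1 → OPP f → Finite (c2 x f) ∧ Group.IsSolvable (c2 x f)
  f3 : 3 ≤ α → ∀ w z : G, w ^ 2 = 1 → z ^ 2 ^ α = 1 →
    Finite (c2 w z) ∧ Group.IsSolvable (c2 w z)

variable {G : Type} [Group G] {n m α : ℕ}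

theorem So.hm0 (S : So n m α G) : m ≠ 0 := by
  rintro rfl
  exact S.hm (dvd_zero _)

theorem So.hn0 (S : So n m α G) : n ≠ 0 := by
  rw [← S.hn]
  exact Nat.mul_ne_zero (pow_ne_zero _ two_ne_zero) S.hm0

theorem So.h2m (S : So n m α G) : Nat.Coprime 2 m :=
  (Nat.Prime.coprime_iff_not_dvd Nat.prime_two).2 S.hm

theorem So.cop (S : So n m α G) : Nat.Coprime (2 ^ α) m := Nat.Coprime.pow_left _ S.h2m

theorem So.hexp (S : So n m α G) : ∀ x : G, x ^ (2 ^ α * m) = 1 := by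
  rw [S.hn]
  exact S.exp

theorem So.hexp' (S : So n m α G) : ∀ x : G, x ^ (m * 2 ^ α) = 1 := by
  rw [mul_comm, S.hn]
  exact S.exp

theorem So.f1' (S : So n m α G) (x y : G) (h : OPr x) :
    Finite (c2 x y) ∧ Group.IsSolvable (c2 x y) := by
  rw [c2_comm]
  exact S.f1 y x h

theorem OPr.opp {G : Type u} [Group G] {y : G} (h : OPr y) : OPP y := by
  obtain ⟨s, h1, h2, h3⟩ := h
  exact ⟨s, 1, h1, h2, by rw [pow_one]; exact h3⟩

/-- elements of odd prime order have exponent `m` -/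
theorem So.opr_m (S : So n m α G) {y : G} (h : OPr y) : y ^ m = 1 := by
  obtain ⟨s, h1, h2, h3⟩ := h
  refine W629.eq_one_of_coprime (a := s) (b := 2 ^ α) ?_ ?_ ?_
  · exact Nat.Coprime.pow_right _ ((Nat.coprime_primes h1 Nat.prime_two).2 h2)
  · rw [← pow_mul, mul_comm, pow_mul, h3, one_pow]
  · rw [← pow_mul, S.hexp']

theorem nice_ex (S : So n m α G) (rM : Rad m G = ⊥) {e : G} (hep : OPr e) (he1 : e ≠ 1) :
    ∃ g, Nice m e g := by
  classical
  have hab := S.cop.symm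
  have he : e ^ m = 1 := S.opr_m hep
  have hexp := S.hexp'
  -- subgroups with `e` outside the radical
  have step : ∀ K : Subgroup G, Finite K → Group.IsSolvable K → e ∈ K →
      (∃ t ∈ K, t ^ m = 1 ∧ (e * t) ^ m ≠ 1) →
      ∃ k ∈ K, ¬ ∀ x ∈ c2 e (k * e * k⁻¹), x ^ m = 1 := by
    rintro K hK hKs heK ⟨t, htK, ht, het⟩
    by_contra hcon
    push Not at hcon
    have h1 := bsfG hab (exp_sub hexp K) hKs (e := ⟨e, heK⟩) (Subtype.ext he) (by
      intro k x hx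
      apply Subtype.ext
      rw [Subgroup.coe_pow, Subgroup.coe_one]
      refine hcon k k.2 x ?_
      have h2 : (c2 (⟨e, heK⟩ : K) (k * ⟨e, heK⟩ * k⁻¹)).map K.subtype =
          c2 e ((k : G) * e * (k : G)⁻¹) := by
        unfold c2
        rw [MonoidHom.map_closure, Set.image_pair]
        rfl
      rw [← h2]
      exact ⟨x, hx, rfl⟩)
    have h2 := rad_mul h1 (z := ⟨t, htK⟩) (Subtype.ext ht)
    exact het (congrArg Subtype.val h2)
  obtain ⟨t, ht, het⟩ : ∃ t : G, t ^ m = 1 ∧ (e * t) ^ m ≠ 1 := by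
    by_contra hcon
    push Not at hcon
    have h1 : e ∈ Rad m G := ⟨he, hcon⟩
    rw [rM] at h1
    exact he1 h1
  have hex : ∃ d, ∃ g : G, (¬ ∀ x ∈ c2 e (g * e * g⁻¹), x ^ m = 1) ∧
      Nat.card (c2 e (g * e * g⁻¹)) = d := by
    obtain ⟨k, -, hk⟩ := step (c2 e t) (S.f1' e t hep).1 (S.f1' e t hep).2
      (Subgroup.subset_closure (by simp)) ⟨t, Subgroup.subset_closure (by simp), ht, het⟩
    exact ⟨_, k, hk, rfl⟩
  obtain ⟨g, hg, hgd⟩ := Nat.find_spec hex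
  have hmin := fun d (hd : d < Nat.find hex) => Nat.find_min hex hd
  have hfin := (S.f1' e (g * e * g⁻¹) hep).1
  have hsol := (S.f1' e (g * e * g⁻¹) hep).2
  have heK : e ∈ c2 e (g * e * g⁻¹) := Subgroup.subset_closure (by simp)
  have hgK : g * e * g⁻¹ ∈ c2 e (g * e * g⁻¹) := Subgroup.subset_closure (by simp)
  have h1 : ∃ t ∈ c2 e (g * e * g⁻¹), t ^ m = 1 ∧ (e * t) ^ m ≠ 1 := by
    by_contra hcon
    push Not at hcon
    -- `e` is in the radical of `K`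
    let e' : c2 e (g * e * g⁻¹) := ⟨e, heK⟩
    let y' : c2 e (g * e * g⁻¹) := ⟨g * e * g⁻¹, hgK⟩
    have h2 : e' ∈ Rad m (c2 e (g * e * g⁻¹)) :=
      ⟨Subtype.ext he, fun z hz => Subtype.ext (hcon z z.2 (congrArg Subtype.val hz))⟩
    apply hg
    intro x hx
    have h3 : (⊤ : Subgroup (c2 e (g * e * g⁻¹))) ≤
        (Subgroup.zpowers ((y' : c2 e (g * e * g⁻¹)) : c2 e (g * e * g⁻¹) ⧸
          Rad m (c2 e (g * e * g⁻¹)))).comap (QuotientGroup.mk' _) := by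
      have h4 : (⊤ : Subgroup (c2 e (g * e * g⁻¹))) = Subgroup.closure {e', y'} := by
        apply Subgroup.map_injective (c2 e (g * e * g⁻¹)).subtype_injective
        rw [← MonoidHom.range_eq_map, Subgroup.range_subtype, MonoidHom.map_closure,
          Set.image_pair]
        rfl
      rw [h4, Subgroup.closure_le]
      rintro a (rfl | ha)
      · rw [SetLike.mem_coe, Subgroup.mem_comap, QuotientGroup.mk'_apply,
          (QuotientGroup.eq_one_iff e').2 h2]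
        exact one_mem _
      · rw [Set.mem_singleton_iff.1 ha]
        exact Subgroup.mem_zpowers _
    have h5 := h3 (Subgroup.mem_top (⟨x, hx⟩ : c2 e (g * e * g⁻¹)))
    obtain ⟨i, hi⟩ := Subgroup.mem_zpowers_iff.1 h5
    have hy : y' ^ m = 1 := Subtype.ext (conj_pow_one he)
    have h6 : (((⟨x, hx⟩ : c2 e (g * e * g⁻¹)) : c2 e (g * e * g⁻¹) ⧸
        Rad m (c2 e (g * e * g⁻¹)))) ^ m = 1 := by
      change (QuotientGroup.mk' _ _) ^ m = 1
      rw [← hi, ← zpow_natCast, ← zpow_mul, mul_comm, zpow_mul, zpow_natCast,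
        ← QuotientGroup.mk_pow, hy]
      exact one_zpow i
    have h7 := pow_of_mk hab (exp_sub hexp _) _ (fun x hx => rad_pow hx) h6
    exact congrArg Subtype.val h7
  obtain ⟨k, hkK, hk⟩ := step _ hfin hsol heK h1
  have hle : c2 e (k * e * k⁻¹) ≤ c2 e (g * e * g⁻¹) :=
    c2_le heK (mul_mem (mul_mem hkK heK) (inv_mem hkK))
  have heq : c2 e (k * e * k⁻¹) = c2 e (g * e * g⁻¹) := by
    refine Subgroup.eq_of_le_of_card_ge hle ?_
    by_contra hlt
    push Not at hlt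
    rw [hgd] at hlt
    exact hmin _ hlt ⟨k, hk, rfl⟩
  exact ⟨k, by rw [heq]; exact hkK, hk⟩

/-- an element of `O_{2',2}` of the finite subgroups inverts no element of odd prime order -/
theorem no_inv (S : So n m α G) (rM : Rad m G = ⊥) {w : G} (hw : SG (2 ^ α) m w)
    {v : G} (hvp : OPr v) (hv1 : v ≠ 1) (hl : w * v * w⁻¹ = v⁻¹) : False := by
  have hvm := S.opr_m hvp
  obtain ⟨s, hs, hs2, hvs⟩ := id hvp
  obtain ⟨g, hg⟩ := nice_ex S rM hvp hv1
  obtain ⟨m1, m2, m3, m4, m5⟩ := gens S.cop.symm (x := v) (k := 1) (g := g) (c := w) hvm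
    (one_pow _) (by rw [mul_one, one_mul]) ⟨s - 1, by
      rw [hl, inv_pow, inv_eq_iff_mul_eq_one, ← pow_succ, Nat.sub_add_cancel hs.one_lt.le, hvs]⟩
    hg.1
  have hv1p : OPr (v * 1) := by
    rw [mul_one]
    exact hvp
  obtain ⟨B, h5, h6, h7⟩ :=
    (hw.2 _ (S.f1' _ _ hv1p).1 (S.f1' _ _ hv1p).2 m4).comm_mem S.cop
  have h9 : w * v * w⁻¹ * v⁻¹ = (v ^ 2)⁻¹ := by
    rw [hl, pow_two, mul_inv_rev]
  have h8 : w * v * w⁻¹ * v⁻¹ ∈ B := by
    apply h7 v m1
    rw [h9, inv_pow, ← pow_mul, mul_comm, pow_mul, hvm, one_pow, inv_one]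
  have h10 : v ^ 2 ≠ 1 := by
    intro h
    exact hv1 (W629.eq_one_of_coprime ((Nat.coprime_primes hs Nat.prime_two).2 hs2) hvs h)
  obtain ⟨m', hm'⟩ := pow_gen hs hvs h10
  have h11 : v ∈ B := by
    rw [← hm']
    rw [h9] at h8
    exact pow_mem (by simpa using inv_mem h8) m'
  exact nice_false hg h6 (h5 g m3) h11

/-- powers of elements of maximal order -/
theorem ssO (S : So n m α G) (hα : 1 ≤ α)
    (hNC : ∀ q : ℕ, q.Prime → q ∣ m → NoC G α m q)
    {x : G} (hx : x ^ 2 ^ α = 1) : SG (2 ^ α) m (x ^ 2 ^ (α - 1)) := by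
  have hp := Nat.prime_two
  have hpm := S.hm
  have hpm' := S.h2m
  have hexp := S.hexp
  have hz : (x ^ 2 ^ (α - 1)) ^ 2 ^ α = 1 := by rw [← pow_mul, mul_comm, pow_mul, hx, one_pow]
  have hz2 : x ^ 2 ^ (α - 1) * x ^ 2 ^ (α - 1) = 1 := by
    rw [← pow_add, ← two_mul, ← pow_succ', Nat.sub_add_cancel hα, hx]
  have hh : ∀ (K : Subgroup G), Finite K → Group.IsSolvable K → ∀ x : K, x ^ 2 ^ α = 1 →
      TT (2 ^ α) m ⊤ (x ^ 2 ^ (α - 1)) := by
    intro K hK hKs x hx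
    refine ind_TTG hp hpm' (fun F _ z => (∃ x : F, x ^ 2 ^ α = 1 ∧ z = x ^ 2 ^ (α - 1)) ∧ Im G F)
      ?_ ?_ (Nat.card K) K le_rfl (exp_sub hexp K) hKs _ ?_ ⟨⟨x, hx, rfl⟩, Im.self K hK hKs⟩
    · rintro F _ N _ _ ⟨⟨x, hx, rfl⟩, hI⟩
      exact ⟨⟨x, by rw [← QuotientGroup.mk_pow, hx]; rfl, by rw [QuotientGroup.mk_pow]⟩,
        hI.quot N⟩
    · rintro F _ _ hF _ - ⟨⟨x, hx, rfl⟩, hI⟩ V L hV hL hVL hVab hVp hLQ hC s hs _
      exact no_confH hpm hNC hI hF hx V L hV hL hVL hVab hVp hLQ hC hs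
    · rw [← pow_mul, mul_comm, pow_mul, hx, one_pow]
  refine ⟨hz, fun E hE hEs hzE => ?_⟩
  by_cases hα1 : α = 1
  · -- `x` itself
    subst hα1
    have hxE : x ∈ E := by simpa using hzE
    have h2 := (hh E hE hEs ⟨x, hxE⟩ (Subtype.ext hx)).map E.subtype
    rw [← MonoidHom.range_eq_map, Subgroup.range_subtype] at h2
    exact h2
  have hα2 : 2 ≤ α := by omega
  obtain ⟨z, hzx⟩ : ∃ z, z = x ^ 2 ^ (α - 1) := ⟨_, rfl⟩
  rw [← hzx] at hz hzE hz2 ⊢
  have key : ∀ f : G, OPP f → TT (2 ^ α) m (c2 z f) z := by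
    intro f hf
    obtain ⟨hfin, hsol⟩ := S.f2 hα2 x f hx hf
    have hxm : x ∈ c2 x f := Subgroup.subset_closure (by simp)
    have hfm : f ∈ c2 x f := Subgroup.subset_closure (by simp)
    have h1 := hh (c2 x f) hfin hsol (⟨x, hxm⟩) (Subtype.ext hx)
    have h2 := h1.map (c2 x f).subtype
    rw [← MonoidHom.range_eq_map, Subgroup.range_subtype] at h2
    have h3 : (c2 x f).subtype ((⟨x, hxm⟩ : c2 x f) ^ 2 ^ (α - 1)) = z := by
      rw [hzx]
      rfl
    rw [h3] at h2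
    refine h2.mono ?_
    unfold c2
    rw [Subgroup.closure_le]
    rintro y (rfl | hy)
    · rw [hzx]
      exact pow_mem hxm _
    · rw [Set.mem_singleton_iff.1 hy]
      exact hfm
  have h4 := detect hpm (exp_sub hexp E) hEs (z := ⟨z, hzE⟩) (Subtype.ext hz2) (Subtype.ext hz) (by
    rintro f ⟨s, k, hs, hs2, hf⟩
    refine TT.comap E.subtype E.subtype_injective ?_
    have h5 : (c2 (⟨z, hzE⟩ : E) f).map E.subtype = c2 z (f : G) := by
      unfold c2
      rw [MonoidHom.map_closure, Set.image_pair]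
      rfl
    rw [h5]
    exact key f ⟨s, k, hs, hs2, congrArg Subtype.val hf⟩)
  have h5 := h4.map E.subtype
  rw [← MonoidHom.range_eq_map, Subgroup.range_subtype] at h5
  exact h5

end Pool.Agent.V5helper30.OP
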