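import Mathlib
import Pool.Agent.V5helper30.OP.Base

set_option autoImplicit false

/-!
# One generator of odd prime order: involutions invert elements of odd prime order
-/

namespace Pool.Agent.V5helper30.OP

open Pool.Agent.H32BU Pool.Agent.W629 Pool.Agent.TH69.Mtn Pool.Agent.TH69.Od Pool.Agent.TH69.Og
open Pool.Agent.TH69.Oh Pool.Agent.TH69.Ok Pool.Agent.TH69.Pq Pool.Agent.N6.Pf

variable {G : Type} [Group G] {n m α : ℕ}

/-- a power of odd prime order -/
theorem inv_prime (hm : ¬ 2 ∣ m) {w u : G} (hu : u ^ m = 1) (hu1 : u ≠ 1)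
    (hwu : w * u * w⁻¹ = u⁻¹) : ∃ v : G, OPr v ∧ v ≠ 1 ∧ w * v * w⁻¹ = v⁻¹ := by
  have hm0 : 0 < m := by
    rcases Nat.eq_zero_or_pos m with rfl | h
    · exact absurd (dvd_zero 2) hm
    · exact h
  have hd := orderOf_dvd_of_pow_eq_one hu
  have ho1 : orderOf u ≠ 1 := fun h => hu1 (orderOf_eq_one_iff.1 h)
  have ho0 : 0 < orderOf u := Nat.pos_of_dvd_of_pos hd hm0
  obtain ⟨r, hr, hrd⟩ := Nat.exists_prime_and_dvd ho1
  obtain ⟨c, hc⟩ := hrd
  have hc0 : 0 < c := by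
    rcases Nat.eq_zero_or_pos c with rfl | h
    · rw [mul_zero] at hc
      omega
    · exact h
  refine ⟨u ^ c, ⟨r, hr, ?_, ?_⟩, ?_, ?_⟩
  · rintro rfl
    exact hm ((dvd_of_mul_right_eq c hc.symm).trans hd)
  · rw [← pow_mul, mul_comm, ← hc, pow_orderOf_eq_one]
  · intro h
    have h1 := Nat.le_of_dvd hc0 (orderOf_dvd_of_pow_eq_one h)
    have h2 := hr.two_le
    rw [hc] at h1
    nlinarith
  · rw [← conj_pow, hwu, inv_pow]

/-- elements of a dihedral group -/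
theorem dih {w j : G} (hw : w * w = 1) (hj : j * j = 1) {N : ℕ} (hN : 2 ∣ N)
    (h : (w * j) ^ N = 1) : ∀ x ∈ c2 w j, x ^ N = 1 := by
  obtain ⟨u, hu⟩ : ∃ u, u = w * j := ⟨_, rfl⟩
  rw [← hu] at h
  have hw' : w⁻¹ = w := inv_eq_of_mul_eq_one_left hw
  have hj' : j⁻¹ = j := inv_eq_of_mul_eq_one_left hj
  have hwu : w * u * w⁻¹ = u⁻¹ := by
    rw [hu, mul_inv_rev, hj', hw', ← mul_assoc, hw, one_mul]
  have hwi : ∀ i : ℤ, w * u ^ i = u ^ (-i) * w := by
    intro i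
    have h1 : (w * u * w⁻¹) ^ i = w * u ^ i * w⁻¹ := by
      exact conj_zpow
    rw [hwu, inv_zpow, ← zpow_neg] at h1
    rw [h1, inv_mul_cancel_right]
  have key : ∀ x ∈ c2 w j, ∃ i : ℤ, x = u ^ i ∨ x = u ^ i * w := by
    intro x hx
    unfold c2 at hx
    induction hx using Subgroup.closure_induction with
    | mem x hx =>
      rcases hx with rfl | hx
      · exact ⟨0, Or.inr (by rw [zpow_zero, one_mul])⟩
      · rw [Set.mem_singleton_iff.1 hx]
        refine ⟨-1, Or.inr ?_⟩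
        have h1 := hwi 1
        rw [zpow_one] at h1
        rw [← h1, hu, ← mul_assoc, hw, one_mul]
    | one => exact ⟨0, Or.inl (by rw [zpow_zero])⟩
    | mul x y _ _ hx hy =>
      obtain ⟨a, rfl | rfl⟩ := hx
      · obtain ⟨b, rfl | rfl⟩ := hy
        · exact ⟨a + b, Or.inl (by rw [zpow_add])⟩
        · exact ⟨a + b, Or.inr (by rw [zpow_add, mul_assoc])⟩
      · obtain ⟨b, rfl | rfl⟩ := hy
        · refine ⟨a + -b, Or.inr ?_⟩
          rw [mul_assoc, hwi, zpow_add, mul_assoc]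
        · refine ⟨a + -b, Or.inl ?_⟩
          have e : u ^ a * w * (u ^ b * w) = u ^ a * (w * u ^ b) * w := by group
          rw [e, hwi, zpow_add]
          have e2 : u ^ a * (u ^ (-b) * w) * w = u ^ a * u ^ (-b) * (w * w) := by group
          rw [e2, hw, mul_one]
    | inv x _ hx =>
      obtain ⟨a, rfl | rfl⟩ := hx
      · exact ⟨-a, Or.inl (by rw [zpow_neg])⟩
      · refine ⟨a, Or.inr ?_⟩
        have h1 := hwi (-a)
        rw [neg_neg] at h1
        rw [mul_inv_rev, hw', ← zpow_neg, h1]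
  intro x hx
  obtain ⟨i, rfl | rfl⟩ := key x hx
  · rw [← zpow_natCast, ← zpow_mul, mul_comm, zpow_mul, zpow_natCast, h, one_zpow]
  · have h1 : (u ^ i * w) ^ 2 = 1 := by
      have e : (u ^ i * w) ^ 2 = u ^ i * (w * u ^ i) * w := by rw [pow_two]; group
      rw [e, hwi]
      have e2 : u ^ i * (u ^ (-i) * w) * w = u ^ i * u ^ (-i) * (w * w) := by group
      rw [e2, hw, mul_one, ← zpow_add, add_neg_cancel, zpow_zero]
    obtain ⟨c, rfl⟩ := hN
    rw [pow_mul, h1, one_pow]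

/-- an involution outside the radical has a product with an involution of order not a power of
two -/
theorem inv_pair (S : So n m α G) (r2 : Rad (2 ^ α) G = ⊥) {w : G} (hw : w * w = 1) (hw1 : w ≠ 1) :
    ∃ j : G, j * j = 1 ∧ (w * j) ^ 2 ^ α ≠ 1 := by
  have hα : 1 ≤ α := by
    by_contra h
    have h0 : α = 0 := by omega
    have h1 := S.hexp w
    rw [h0, pow_zero, one_mul] at h1
    exact hw1 (W629.eq_one_of_coprime S.h2m (by rw [pow_two]; exact hw) h1)
  by_contra hcon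
  push Not at hcon
  obtain ⟨z, hz, hwz⟩ : ∃ z : G, z ^ 2 ^ α = 1 ∧ (w * z) ^ 2 ^ α ≠ 1 := by
    by_contra hcon2
    push Not at hcon2
    have hwα : w ^ 2 ^ α = 1 := by
      obtain ⟨c, hc⟩ : 2 ∣ 2 ^ α := dvd_pow_self 2 (by omega)
      rw [hc, pow_mul, pow_two, hw, one_pow]
    have h1 : w ∈ Rad (2 ^ α) G := ⟨hwα, hcon2⟩
    rw [r2] at h1
    exact hw1 h1
  rcases (show α = 1 ∨ α = 2 ∨ 3 ≤ α by omega) with h | h | h
  · subst h
    rw [pow_one, pow_two] at hz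
    exact hwz (hcon z hz)
  · subst h
    have hD : DD4 w := ⟨hw, hcon⟩
    have h1 := bs4 hD (x := z) hz
    have h2 : (w * z) ^ 16 = 1 := by
      have e : w * z = z⁻¹ * (z * w) * z⁻¹⁻¹ := by group
      rw [e, conj_pow, h1, mul_one, mul_inv_cancel]
    apply hwz
    refine W629.eq_one_of_coprime (a := 4) (b := m) ?_ ?_ ?_
    · exact Nat.Coprime.pow_left 2 S.h2m
    · rw [← pow_mul]
      exact h2
    · rw [← pow_mul]
      exact S.hexp _
  · obtain ⟨hfin, hsol⟩ := S.f3 h w z (by rw [pow_two]; exact hw) hz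
    have hwE : w ∈ c2 w z := Subgroup.subset_closure (by simp)
    have hzE : z ∈ c2 w z := Subgroup.subset_closure (by simp)
    have hwα : w ^ 2 ^ α = 1 := by
      obtain ⟨c, hc⟩ : 2 ∣ 2 ^ α := dvd_pow_self 2 (by omega)
      rw [hc, pow_mul, pow_two, hw, one_pow]
    have h1 := bsfG S.cop (exp_sub S.hexp (c2 w z)) hsol (e := ⟨w, hwE⟩) (Subtype.ext hwα) (by
      intro k x hx
      refine dih (w := (⟨w, hwE⟩ : c2 w z)) (Subtype.ext hw) ?_ (dvd_pow_self 2 (by omega)) ?_ x hx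
      · have e : k * (⟨w, hwE⟩ : c2 w z) * k⁻¹ * (k * ⟨w, hwE⟩ * k⁻¹) =
            k * ((⟨w, hwE⟩ : c2 w z) * ⟨w, hwE⟩) * k⁻¹ := by group
        have e2 : (⟨w, hwE⟩ : c2 w z) * ⟨w, hwE⟩ = 1 := Subtype.ext hw
        rw [e, e2, mul_one, mul_inv_cancel]
      · apply Subtype.ext
        refine hcon ((k : G) * w * (k : G)⁻¹) ?_
        have e : (k : G) * w * (k : G)⁻¹ * ((k : G) * w * (k : G)⁻¹) =
            (k : G) * (w * w) * (k : G)⁻¹ := by group
        rw [e, hw, mul_one, mul_inv_cancel])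
    have h2 := rad_mul h1 (z := ⟨z, hzE⟩) (Subtype.ext hz)
    exact hwz (congrArg Subtype.val h2)

/-- involutions outside the radical invert elements of odd prime order -/
theorem invol (S : So n m α G) (r2 : Rad (2 ^ α) G = ⊥) {w : G} (hw : w * w = 1) (hw1 : w ≠ 1) :
    ∃ v : G, OPr v ∧ v ≠ 1 ∧ w * v * w⁻¹ = v⁻¹ := by
  obtain ⟨j, hj, hwj⟩ := inv_pair S r2 hw hw1
  have hw' : w⁻¹ = w := inv_eq_of_mul_eq_one_left hw
  have hj' : j⁻¹ = j := inv_eq_of_mul_eq_one_left hj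
  have hwu : w * (w * j) * w⁻¹ = (w * j)⁻¹ := by
    rw [mul_inv_rev, hj', hw', ← mul_assoc, hw, one_mul]
  refine inv_prime S.hm (u := (w * j) ^ 2 ^ α) ?_ hwj ?_
  · rw [← pow_mul]
    exact S.hexp _
  · rw [← conj_pow, hwu, inv_pow]

end Pool.Agent.V5helper30.OP
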