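import Mathlib
import Pool.Agent.V5helper30.OP.Inv

set_option autoImplicit false

/-!
# One generator of odd prime order: centralisers of elements of order `q`, exponent `2 ^ α * q`
-/

namespace Pool.Agent.V5helper30.OP

open Pool.Agent.H32BU Pool.Agent.W629 Pool.Agent.TH69.Mtn Pool.Agent.TH69.Od Pool.Agent.TH69.Og
open Pool.Agent.TH69.Oh Pool.Agent.TH69.Ok Pool.Agent.TH69.Pq Pool.Agent.N6.Pf

variable {G : Type} [Group G] {n q α : ℕ}

/-- the hypotheses for the exponent `2 ^ α * q` -/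
structure Sq (n q α : ℕ) (G : Type) [Group G] : Prop where
  S : So n q α G
  hq : q.Prime
  r2 : Rad (2 ^ α) G = ⊥

theorem Sq.hq2 (S : Sq n q α G) : q ≠ 2 := by
  rintro rfl
  exact S.S.hm dvd_rfl

theorem Sq.hM (S : Sq n q α G) : Nat.Coprime (2 ^ α) q := S.S.cop

theorem Sq.hexp (S : Sq n q α G) : ∀ x : G, x ^ (2 ^ α * q ^ 1) = 1 := by
  rw [pow_one]
  exact S.S.hexp

theorem Sq.opr (S : Sq n q α G) {y : G} (h : y ^ q = 1) : OPr y := ⟨q, S.hq, S.hq2, h⟩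

/-- `O_2` of the centraliser of an element of order `q` -/
theorem t3a (S : Sq n q α G) {g e : G} (hg : g ^ q = 1)
    (he : e ∈ Tw.RK (2 ^ α) (Subgroup.centralizer {g})) : e = 1 := by
  classical
  have heM := Tw.RK_pow he
  have heM1 : e ^ 2 ^ α = 1 := by simpa using heM
  by_contra he1
  obtain ⟨i, hi1, hi2⟩ : ∃ i, e ^ 2 ^ i ≠ 1 ∧ e ^ 2 ^ (i + 1) = 1 := by
    have hex : ∃ i, e ^ 2 ^ i = 1 := ⟨α, heM1⟩
    have h1 := Nat.find_spec hex
    have h2 : Nat.find hex ≠ 0 := by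
      intro h
      rw [h, pow_zero, pow_one] at h1
      exact he1 h1
    obtain ⟨i, hi⟩ := Nat.exists_eq_succ_of_ne_zero h2
    refine ⟨i, Nat.find_min hex (by omega), ?_⟩
    rw [hi] at h1
    exact h1
  obtain ⟨e', he'⟩ : ∃ e', e' = e ^ 2 ^ i := ⟨_, rfl⟩
  have he'R : e' ∈ Tw.RK (2 ^ α) (Subgroup.centralizer {g}) := by
    rw [he']
    exact pow_mem he _
  have he'2 : e' * e' = 1 := by
    rw [he', ← pow_add, ← two_mul, ← pow_succ', hi2]
  rw [← he'] at hi1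
  have he'M : e' ^ 2 ^ α = 1 := by simpa using Tw.RK_pow he'R
  have hge : Commute g e' := (Tw.mem_cent.1 (Tw.RK_le he'R)).symm
  obtain ⟨v, hvp, hv1, hev⟩ := invol S.S S.r2 he'2 hi1
  have hvq := S.S.opr_m hvp
  obtain ⟨hK, hKs⟩ := S.S.f1 (g * e') v hvp
  obtain ⟨K, hKd⟩ : ∃ K, K = c2 (g * e') v := ⟨_, rfl⟩
  have h1 : g * e' ∈ K := by rw [hKd]; exact Subgroup.subset_closure (by simp)
  have hvK : v ∈ K := by rw [hKd]; exact Subgroup.subset_closure (by simp)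
  rw [← hKd] at hK hKs
  obtain ⟨hgK, heK⟩ := mem_of_mul hge.eq hg he'M S.hM.symm K h1
  have h2 : (⟨e', heK⟩ : K) ∈ Rad (2 ^ α) K := by
    refine t3q_fin (β := 1) S.hq S.hM (exp_sub S.hexp K) hKs (g := ⟨g, hgK⟩)
      (Subtype.ext (by simpa using hg)) (Subtype.ext (by simpa using he'M))
      (Subtype.ext hge.eq) ?_
    rintro ⟨x, hx⟩ hxg
    have hxg' : Commute x g := congrArg Subtype.val hxg
    exact Subtype.ext (by simpa using Tw.cent_comm he'R hxg')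
  have h3 : (⟨e', heK⟩ : K) * (⟨v, hvK⟩ * (⟨e', heK⟩ : K)⁻¹ * ⟨v, hvK⟩⁻¹) ∈ Rad (2 ^ α) K :=
    mul_mem h2 ((rad_normal (2 ^ α)).conj_mem _ (inv_mem h2) _)
  have h4 : (e' * (v * e'⁻¹ * v⁻¹)) ^ 2 ^ α = 1 := congrArg Subtype.val (rad_pow h3)
  have h5 : e' * (v * e'⁻¹ * v⁻¹) = (v ^ 2)⁻¹ := by
    have e1 : e' * (v * e'⁻¹ * v⁻¹) = (e' * v * e'⁻¹) * v⁻¹ := by group
    rw [e1, hev, pow_two, mul_inv_rev]
  rw [h5, inv_pow, inv_eq_one, ← pow_mul] at h4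
  refine hv1 (W629.eq_one_of_coprime (a := 2 * 2 ^ α) (b := q) ?_ h4 hvq)
  exact Nat.Coprime.mul_left S.S.h2m S.hM

/-- a `2`-element commuting with `s` which lies in `O_2` of all finite subgroups containing
`s` and `y` -/
theorem t4a (S : Sq n q α G) {s y τ : G} (hy : OPr y) (hs : s ^ q = 1) (hτ : Commute τ s)
    (hall : ∀ K : Subgroup G, Finite K → Group.IsSolvable K → s ∈ K → y ∈ K →
      τ ∈ Tw.RK (2 ^ α) K) : τ = 1 := by
  apply t3a S hs
  refine Tw.mem_RK.2 ⟨Tw.mem_cent.2 hτ, ?_, ?_⟩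
  · have := Tw.RK_pow (hall (c2 s y) (S.S.f1 _ _ hy).1 (S.S.f1 _ _ hy).2
      (Subgroup.subset_closure (by simp)) (Subgroup.subset_closure (by simp)))
    exact Subtype.ext (by simpa using this)
  · rintro ⟨z, hz⟩ hzM
    have hzM' : z ^ 2 ^ α = 1 := by simpa using congrArg Subtype.val hzM
    have hzs : Commute s z := (Tw.mem_cent.1 hz).symm
    have h1 : s * z ∈ c2 (s * z) y := Subgroup.subset_closure (by simp)
    have hyK : y ∈ c2 (s * z) y := Subgroup.subset_closure (by simp)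
    obtain ⟨hsK, hzK⟩ := mem_of_mul hzs.eq hs hzM' S.hM.symm _ h1
    have := Tw.RK_mul (hall _ (S.S.f1 _ _ hy).1 (S.S.f1 _ _ hy).2 hsK hyK) hzK hzM'
    exact Subtype.ext (by simpa using this)

/-! ### the prime three -/

/-- commutators centralise the elements commuting with `s`, up to `3`-elements -/
theorem ptO {G : Type} [Group G] {n α : ℕ} (S : Sq n 3 α G)
    {s s2 y c t : G} (hyp : y ^ 3 = 1) (hs : s ^ 3 = 1) (hs2 : s2 ^ 3 = 1)
    (hss : (s * s2) ^ 3 = 1) (hc : s2⁻¹ * s * s2 = s * c) (hcs : Commute c s)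
    (hts : Commute t s) (hs2y : s2 ∈ c2 s y) (hty : t ∈ c2 s y) :
    (t * c * t⁻¹ * c⁻¹) ^ 3 = 1 := by
  have hM := S.hM
  have hexp : ∀ x : G, x ^ (2 ^ α * 3) = 1 := S.S.hexp
  obtain ⟨a, b, ⟨a', ha'⟩, ⟨b', hb'⟩, ha, hb, hab⟩ := crt hM
  obtain ⟨x, hx⟩ : ∃ x, x = t * c * t⁻¹ * c⁻¹ := ⟨_, rfl⟩
  obtain ⟨τ, hτ⟩ : ∃ τ, τ = x ^ b := ⟨_, rfl⟩
  have hτM : τ ^ 2 ^ α = 1 := by
    rw [hτ, hb', ← pow_mul, show 3 * b' * 2 ^ α = (2 ^ α * 3) * b' from by ring, pow_mul, hexp,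
      one_pow]
  have hτs0 : Commute s (t * c * t⁻¹ * c⁻¹) :=
    ((hts.symm.mul_right hcs.symm).mul_right hts.symm.inv_right).mul_right hcs.symm.inv_right
  have hτs : Commute τ s := by
    rw [hτ, hx]
    exact (hτs0.pow_right b).symm
  have h1 : τ = 1 := by
    refine t4a S (y := y) (S.opr hyp) hs hτs fun K hK hKs hsK hyK => ?_
    have hle : c2 s y ≤ K := c2_le hsK hyK
    have hs2K := hle hs2y
    have htK := hle hty
    have hcK : c ∈ K := by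
      have e : c = s⁻¹ * (s2⁻¹ * s * s2) := by rw [hc]; group
      rw [e]
      exact mul_mem (inv_mem hsK) (mul_mem (mul_mem (inv_mem hs2K) hsK) hs2K)
    have hxK : x ∈ K := by
      rw [hx]
      exact mul_mem (mul_mem (mul_mem htK hcK) (inv_mem htK)) (inv_mem hcK)
    have hτK : τ ∈ K := by
      rw [hτ]
      exact pow_mem hxK b
    refine Tw.mem_RK.2 ⟨hτK, ?_⟩
    refine pt_core hM (exp_sub hexp K) hKs (s := ⟨s, hsK⟩) (s2 := ⟨s2, hs2K⟩)
      (c := ⟨c, hcK⟩) (t := ⟨t, htK⟩) (k := b) (Subtype.ext hs) (Subtype.ext hs2) (Subtype.ext hss)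
      (Subtype.ext hc) (Subtype.ext hcs) (Subtype.ext hts) ?_ (Subtype.ext hτM)
    apply Subtype.ext
    change τ = (t * c * t⁻¹ * c⁻¹) ^ b
    rw [hτ, hx]
  rw [← hx]
  have h2 := hab x (hexp x)
  rw [← hτ, h1, mul_one] at h2
  rw [← h2, ← pow_mul, ha', show 2 ^ α * a' * 3 = (2 ^ α * 3) * a' from by ring, pow_mul, hexp,
    one_pow]

/-- lifting elements of order `q` -/
theorem lift_q (S : Sq n q α G) {K : Subgroup G} {F : Type} [Group F] (π : K →* F)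
    (hπ : Function.Surjective π) {h : F} (hh : h ^ q = 1) :
    ∃ y : K, y ^ q = 1 ∧ π y = h := by
  obtain ⟨a, -, ⟨a', ha'⟩, -, ha, -, -⟩ := crt S.hM
  obtain ⟨y0, hy0⟩ := hπ h
  refine ⟨y0 ^ a, ?_, ?_⟩
  · rw [ha', ← pow_mul, show 2 ^ α * a' * q = (2 ^ α * q) * a' from by ring, pow_mul,
      exp_sub S.S.hexp K, one_pow]
  · rw [map_pow, hy0, ha h hh]

/-- commutators centralise the elements commuting with `s`, up to `3`-elements, in images -/
theorem ptfO {G : Type} [Group G] {n α : ℕ} (S : Sq n 3 α G)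
    {F : Type} [Group F] (hI : Im G F) {s h s2 t c : F} (hh : h ^ 3 = 1)
    (hs : s ^ 3 = 1)
    (D : Subgroup F) (hD : ∀ d ∈ D, d ^ 3 = 1) (hsD : s ∈ D) (hs2D : s2 ∈ D) (hs2 : s2 ∈ c2 s h)
    (ht : t ∈ c2 s h) (htM : t ^ 2 ^ α = 1) (hts : Commute t s) (hc : c = s⁻¹ * (s2⁻¹ * s * s2)) :
    (t * c * t⁻¹ * c⁻¹) ^ 3 = 1 := by
  classical
  have hM := S.hM
  obtain ⟨K, hK, hKs, π, hπ⟩ := hI
  obtain ⟨a, b, ⟨a', ha'⟩, ⟨b', hb'⟩, ha, hb, hab⟩ := crt hM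
  have hexp : ∀ x : K, x ^ (2 ^ α * 3) = 1 := exp_sub S.S.hexp K
  obtain ⟨y, hyr, hy⟩ := lift_q S π hπ hh
  have hyPP : (y : G) ^ 3 = 1 := congrArg Subtype.val hyr
  have hex : ∃ d, ∃ s1 : K, s1 ^ 3 = 1 ∧ π s1 = s ∧ Nat.card (c2 s1 y) = d := by
    obtain ⟨s0, hs0⟩ := hπ s
    refine ⟨_, s0 ^ a, ?_, ?_, rfl⟩
    · rw [← pow_mul, ha', show 2 ^ α * a' * 3 = (2 ^ α * 3) * a' from by ring, pow_mul, hexp,
        one_pow]
    · rw [map_pow, hs0, ha s hs]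
  obtain ⟨s1, hs1, hs1s, hd⟩ := Nat.find_spec hex
  have hmin := fun d (hd : d < Nat.find hex) => Nat.find_min hex hd
  have hmap : (c2 s1 y).map π = c2 s h := by rw [map_c2', hs1s, hy]
  have hst : s * t ∈ (c2 s1 y).map π := by
    rw [hmap]
    exact mul_mem (Subgroup.subset_closure (by simp)) ht
  obtain ⟨g, hg, hgst⟩ := hst
  -- the lifts
  obtain ⟨s', hs'⟩ : ∃ s', s' = g ^ a := ⟨_, rfl⟩
  obtain ⟨t', ht'⟩ : ∃ t', t' = g ^ b := ⟨_, rfl⟩
  have hs'3 : s' ^ 3 = 1 := by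
    rw [hs', ← pow_mul, ha', show 2 ^ α * a' * 3 = (2 ^ α * 3) * a' from by ring, pow_mul, hexp,
      one_pow]
  have hπs' : π s' = s := by
    rw [hs', map_pow, hgst, hts.symm.mul_pow, ha s hs, ha', pow_mul, htM, one_pow, mul_one]
  have hπt' : π t' = t := by
    rw [ht', map_pow, hgst, hts.symm.mul_pow, hb t htM, hb', pow_mul, hs, one_pow, one_mul]
  have hts' : Commute t' s' := by
    rw [hs', ht']
    exact (Commute.refl g).pow_pow b a
  have hs'H : s' ∈ c2 s1 y := by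
    rw [hs']
    exact pow_mem hg a
  have ht'H : t' ∈ c2 s1 y := by
    rw [ht']
    exact pow_mem hg b
  have hle : c2 s' y ≤ c2 s1 y := c2_le hs'H (Subgroup.subset_closure (by simp))
  have heq : c2 s' y = c2 s1 y := by
    refine Subgroup.eq_of_le_of_card_ge hle ?_
    by_contra hlt
    push Not at hlt
    rw [hd] at hlt
    exact hmin _ hlt ⟨s', hs'3, hπs', rfl⟩
  obtain ⟨Q, hQ1, hQ2, s2', hQ3, hs2'H, hπs2'⟩ := lift_three π hM hexp (c2 s' y) (s := s') hs'3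
    (Subgroup.subset_closure (by simp)) D hD (by rw [hπs']; exact hsD) hs2D (by
      rw [heq, hmap]
      exact hs2)
  rw [← heq] at ht'H
  obtain ⟨c', hc'⟩ : ∃ c', c' = s'⁻¹ * (s2'⁻¹ * s' * s2') := ⟨_, rfl⟩
  have hπc' : π c' = c := by
    rw [hc', hc, map_mul, map_mul, map_mul, map_inv, map_inv, hπs', hπs2']
  have hcs : Commute c' s' := by
    have h1 := Tw.comm_conj (a := s') (b := s') (c := s2') (hQ2 _ hQ3) (hQ2 _ (mul_mem hQ1 hQ3))
      (hQ2 _ (mul_mem hQ1 hQ3)) (hQ2 _ (mul_mem (mul_mem hQ1 hQ1) hQ3)) (Commute.refl _)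
    rw [hc']
    exact ((Commute.refl s').inv_right.mul_right h1).symm
  have hmapG : ∀ x ∈ c2 s' y, (x : G) ∈ c2 (s' : G) (y : G) := by
    intro x hx
    have h1 := map_c2' K.subtype s' y
    change (x : G) ∈ c2 (K.subtype s') (K.subtype y)
    rw [← h1]
    exact ⟨x, hx, rfl⟩
  have h1 := ptO S (s := (s' : G)) (s2 := (s2' : G)) (y := (y : G)) (c := (c' : G))
    (t := (t' : G)) hyPP (congrArg Subtype.val hs'3) (congrArg Subtype.val (hQ2 _ hQ3))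
    (congrArg Subtype.val (hQ2 _ (mul_mem hQ1 hQ3))) (by
      rw [hc']
      change _ = (s' : G) * ((s' : G)⁻¹ * ((s2' : G)⁻¹ * s' * s2'))
      group) (congrArg Subtype.val hcs) (congrArg Subtype.val hts') (hmapG _ hs2'H)
    (hmapG _ ht'H)
  have h2 : (t' * c' * t'⁻¹ * c'⁻¹) ^ 3 = 1 := Subtype.ext h1
  have h3 := congrArg π h2
  rw [map_one, map_pow, map_mul, map_mul, map_mul, map_inv, map_inv, hπt', hπc'] at h3
  exact h3

theorem cent_cO {G : Type} [Group G] {n α : ℕ} (hα : 1 ≤ α) (S : Sq n 3 α G)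
    {F : Type} [Group F] [Finite F]
    (hI : Im G F) (hF : ∀ x : F, x ^ (2 ^ α * 3) = 1) (V : Subgroup F) [hVn : V.Normal]
    (hab : ∀ v ∈ V, ∀ w ∈ V, v * w = w * v) (hpow : ∀ v ∈ V, v ^ 2 = 1)
    {s h : F} (hh : h ^ 3 = 1) (hs : s ^ 3 = 1) (D : Subgroup (F ⧸ V)) (hD : ∀ d ∈ D, d ^ 3 = 1)
    (hsD : (s : F ⧸ V) ∈ D) {s2 : F ⧸ V} (hs2D : s2 ∈ D)
    (hs2 : s2 ∈ (c2 s h).map (QuotientGroup.mk' V)) :
    ∃ c r : F, c ∈ c2 s h ∧ r ∈ c2 s h ∧ c ^ 3 = 1 ∧ (r : F ⧸ V) = s2 ∧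
      c = s⁻¹ * (r⁻¹ * s * r) ∧ Commute c s ∧ Commute c r ∧
      ∀ t ∈ V, t ∈ c2 s h → t * c = c * t := by
  have hM := S.hM
  have h2M : 2 ∣ 2 ^ α := dvd_pow_self 2 (by omega)
  have hsH : s ∈ c2 s h := Subgroup.subset_closure (by simp)
  obtain ⟨Q, hsQ, hQ, r, hrQ, hrH, hrs2⟩ := lift_three (QuotientGroup.mk' V) hM hF (c2 s h) hs hsH
    D hD hsD hs2D hs2
  have h1 := Tw.comm_conj (a := s) (b := s) (c := r) (hQ _ hrQ) (hQ _ (mul_mem hsQ hrQ))
    (hQ _ (mul_mem hsQ hrQ)) (hQ _ (mul_mem (mul_mem hsQ hsQ) hrQ)) (Commute.refl _)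
  have h2 := Tw.comm_conj (a := r) (b := r) (c := s) (hQ _ hsQ) (hQ _ (mul_mem hrQ hsQ))
    (hQ _ (mul_mem hrQ hsQ)) (hQ _ (mul_mem (mul_mem hrQ hrQ) hsQ)) (Commute.refl _)
  obtain ⟨c, hc⟩ : ∃ c, c = s⁻¹ * (r⁻¹ * s * r) := ⟨_, rfl⟩
  have hcQ : c ∈ Q := by
    rw [hc]
    exact mul_mem (inv_mem hsQ) (mul_mem (mul_mem (inv_mem hrQ) hsQ) hrQ)
  have hcH : c ∈ c2 s h := by
    rw [hc]
    exact mul_mem (inv_mem hsH) (mul_mem (mul_mem (inv_mem hrH) hsH) hrH)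
  have hcs : Commute c s := by
    rw [hc]
    exact ((Commute.refl s).inv_right.mul_right h1).symm
  have hcr : Commute c r := by
    have e : c = (s⁻¹ * r * s)⁻¹ * r := by rw [hc]; group
    rw [e]
    exact (h2.symm.inv_left).mul_left (Commute.refl r)
  refine ⟨c, r, hcH, hrH, hQ c hcQ, hrs2, hc, hcs, hcr, fun t ht htH => ?_⟩
  -- elements commuting with `s`
  have key : ∀ t ∈ V, t ∈ c2 s h → Commute t s → Commute t c := by
    intro t ht htH hts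
    have htM : t ^ 2 ^ α = 1 := by
      obtain ⟨k, hk⟩ := h2M
      rw [hk, pow_mul, hpow t ht, one_pow]
    have h3 := ptfO S hI hh hs Q hQ hsQ hrQ hrH htH htM hts hc
    have h4 : t * c * t⁻¹ * c⁻¹ ∈ V := by
      have := mul_mem ht (hVn.conj_mem _ (inv_mem ht) c)
      have e : t * (c * t⁻¹ * c⁻¹) = t * c * t⁻¹ * c⁻¹ := by group
      rwa [e] at this
    have h5 := W629.eq_one_of_coprime (by norm_num) (hpow _ h4) h3
    rw [mul_inv_eq_one, mul_inv_eq_iff_eq_mul] at h5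
    exact h5
  have conj : ∀ g : F, ∀ t ∈ V, t ∈ c2 s h → Commute t (r⁻¹ * g * r) →
      (∀ t ∈ V, t ∈ c2 s h → Commute t g → Commute t c) → Commute t c := by
    intro g t ht htH htg hg
    have h3 := hg (r * t * r⁻¹) (hVn.conj_mem t ht r) (mul_mem (mul_mem hrH htH) (inv_mem hrH)) (by
      have h4 := htg.eq
      change r * t * r⁻¹ * g = g * (r * t * r⁻¹)
      calc r * t * r⁻¹ * g = r * (t * (r⁻¹ * g * r)) * r⁻¹ := by group
        _ = r * (r⁻¹ * g * r * t) * r⁻¹ := by rw [h4]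
        _ = g * (r * t * r⁻¹) := by group)
    have h4 := h3.eq
    have h5 : r⁻¹ * c * r = c := by
      rw [mul_assoc, hcr.eq]
      group
    change t * c = c * t
    calc t * c = r⁻¹ * (r * t * r⁻¹ * (r * c * r⁻¹)) * r := by group
      _ = r⁻¹ * (r * t * r⁻¹ * c) * r := by
          have h6 : r * c * r⁻¹ = c := by rw [← hcr.eq]; group
          rw [h6]
      _ = r⁻¹ * (c * (r * t * r⁻¹)) * r := by rw [h4]
      _ = (r⁻¹ * c * r) * t := by group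
      _ = c * t := by rw [h5]
  have e1 : s * c = r⁻¹ * s * r := by rw [hc]; group
  have e2 : s * c * c = r⁻¹ * (s * c) * r := by
    have h3 : r⁻¹ * (s * c) * r = (r⁻¹ * s * r) * (r⁻¹ * c * r) := by group
    have h5 : r⁻¹ * c * r = c := by
      rw [mul_assoc, hcr.eq]
      group
    rw [h3, h5, ← e1]
  have key1 : ∀ t ∈ V, t ∈ c2 s h → Commute t (s * c) → Commute t c := by
    intro t ht htH h3
    rw [e1] at h3
    exact conj s t ht htH h3 key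
  have key2 : ∀ t ∈ V, t ∈ c2 s h → Commute t (s * c * c) → Commute t c := by
    intro t ht htH h3
    rw [e2] at h3
    exact conj (s * c) t ht htH h3 key1
  have h6 := fix3 (F := c2 s h) (V.subgroupOf (c2 s h)) (s := ⟨s, hsH⟩) (c := ⟨c, hcH⟩)
    (fun v hv w hw => Subtype.ext (hab v hv w hw)) (Subtype.ext hs) (Subtype.ext (hQ c hcQ))
    (Subtype.ext hcs.eq)
    (fun t ht hts => Subtype.ext (key t ht t.2 (congrArg Subtype.val hts.eq)).eq)
    (fun t ht hts => Subtype.ext (key1 t ht t.2 (congrArg Subtype.val hts.eq)).eq)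
    (fun t ht hts => Subtype.ext (key2 t ht t.2 (congrArg Subtype.val hts.eq)).eq)
    (u := ⟨t, htH⟩) ht (Subtype.ext (hpow t ht))
  exact congrArg Subtype.val h6.eq

end Pool.Agent.V5helper30.OP
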