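import Mathlib
import Pool.Agent.V5helper30.OP.ExcA

set_option autoImplicit false

/-!
# One generator of odd prime order: elements of order `q`, exponent `2 ^ α * q`, and central
# commutators
-/

namespace Pool.Agent.V5helper30.OP

open Pool.Agent.H32BU Pool.Agent.W629 Pool.Agent.TH69.Mtn Pool.Agent.TH69.Od Pool.Agent.TH69.Og
open Pool.Agent.TH69.Oh Pool.Agent.TH69.Ok Pool.Agent.TH69.Pq Pool.Agent.N6.Pf

variable {G : Type} [Group G] {n q α : ℕ}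

/-- elements of order `q` lie in `O_{q',q}` -/
theorem ssq (S : Sq n q α G) (hex : ∀ k : ℕ, 1 ≤ k → 2 ^ k ≠ q - 1) {x : G} (hx : x ^ q = 1) :
    SG (q ^ 1) (2 ^ α) x := by
  have hq := S.hq
  have h2q : Nat.Coprime q (2 ^ α) := S.hM.symm
  have hpm : ¬ q ∣ 2 ^ α := (Nat.Prime.coprime_iff_not_dvd hq).1 h2q
  have hm : 2 ^ α ≠ 0 := pow_ne_zero _ two_ne_zero
  have hexp : ∀ x : G, x ^ (q ^ 1 * 2 ^ α) = 1 := by
    rw [pow_one, mul_comm]
    exact S.S.hexp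
  have hx1 : x ^ q ^ 1 = 1 := by rw [pow_one]; exact hx
  have hex' : ∀ r : ℕ, r.Prime → r ∣ 2 ^ α → ∀ μ, 1 ≤ μ → μ ≤ 1 → ∀ k, 1 ≤ k →
      r ^ k ≠ q ^ μ - 1 := by
    intro r hr hr2 μ h1 h2 k hk
    have h3 : r = 2 := (Nat.prime_dvd_prime_iff_eq hr Nat.prime_two).1 (hr.dvd_of_dvd_pow hr2)
    have h4 : μ = 1 := by omega
    rw [h3, h4, pow_one]
    exact hex k hk
  refine ⟨hx1, fun E hE hEs hzE => ?_⟩
  have key : ∀ f : G, TT (q ^ 1) (2 ^ α) (c2 x f) x := by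
    intro f
    obtain ⟨hfin, hsol⟩ := S.S.f1' x f (S.opr hx)
    have hxm : x ∈ c2 x f := Subgroup.subset_closure (by simp)
    have h1 := hhBG (α := 1) hq hpm hm le_rfl hex' (exp_sub hexp (c2 x f)) hsol (x := ⟨x, hxm⟩)
      (Subtype.ext hx1)
    have h2 := h1.map (c2 x f).subtype
    rw [← MonoidHom.range_eq_map, Subgroup.range_subtype] at h2
    have h3 : (c2 x f).subtype ((⟨x, hxm⟩ : c2 x f) ^ q ^ (1 - 1)) = x := by
      rw [Nat.sub_self, pow_zero, pow_one]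
      rfl
    rw [h3] at h2
    exact h2
  have h4 := bsG hq h2q (exp_sub hexp E) hEs (z := ⟨x, hzE⟩) (Subtype.ext hx1) (by
    intro f
    refine TT.comap E.subtype E.subtype_injective ?_
    have h5 : (c2 (⟨x, hzE⟩ : E) f).map E.subtype = c2 x (f : G) := by
      unfold c2
      rw [MonoidHom.map_closure, Set.image_pair]
      rfl
    rw [h5]
    exact key f)
  have h5 := h4.map E.subtype
  rw [← MonoidHom.range_eq_map, Subgroup.range_subtype] at h5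
  exact h5

/-- the centraliser lemma -/
theorem cqO (S : Sq n q α G) {s y τ : G} (hy : OPr y) (hs : SG (q ^ 1) (2 ^ α) s)
    (hτN : τ ∈ Ncl s y) (hτs : Commute τ s) (hτ : τ ^ 2 ^ α = 1) : τ = 1 := by
  have hMQ : Nat.Coprime (2 ^ α) (q ^ 1) := by
    rw [pow_one]
    exact S.hM
  have hs1 : s ^ q = 1 := by
    have := hs.1
    rwa [pow_one] at this
  refine t4a S (y := y) hy hs1 hτs fun K hK hKs hsK hyK => ?_
  have hle : c2 s y ≤ K := c2_le hsK hyK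
  obtain ⟨A, B, h2, h3, h4, h5, h6⟩ := hs.2 K hK hKs hsK
  have hτB : τ ∈ B := Ncl_le (fun g hg x hx => h3 g (hle hg) x hx) h6 hτN
  have hτA : τ ∈ A := mem_of_pow hMQ hτ (h5 τ hτB)
  have hτK : τ ∈ K := hle (Ncl_le_c2 s y hτN)
  have hn1 : (A.subgroupOf K).Normal := ⟨fun x hx g => h2 g g.2 x hx⟩
  have h7 := le_rad (G := K) hMQ (exp_sub S.hexp K) (A.subgroupOf K)
    (fun x hx => Subtype.ext (h4 x hx))
  exact Tw.mem_RK.2 ⟨hτK, h7 hτA⟩

/-- the centraliser lemma in images of finite subgroups -/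
theorem cqfO (S : Sq n q α G) (hS : ∀ s : G, s ^ q = 1 → SG (q ^ 1) (2 ^ α) s)
    {F : Type} [Group F] (hI : Im G F) {s h τ : F} (hh : h ^ q = 1) (hs : s ^ q = 1)
    (hτN : τ ∈ Ncl s h) (hτs : Commute τ s) (hτ : τ ^ 2 ^ α = 1) : τ = 1 := by
  classical
  have hM := S.hM
  obtain ⟨K, hK, hKs, π, hπ⟩ := hI
  obtain ⟨a, b, ⟨a', ha'⟩, ⟨b', hb'⟩, ha, hb, hab⟩ := crt hM
  have hexp : ∀ x : K, x ^ (2 ^ α * q) = 1 := exp_sub S.S.hexp K
  have hpa : ∀ x : K, (x ^ a) ^ q = 1 := by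
    intro x
    rw [← pow_mul, ha', show 2 ^ α * a' * q = (2 ^ α * q) * a' from by ring, pow_mul, hexp,
      one_pow]
  obtain ⟨y, hyr, hy⟩ := lift_q S π hπ hh
  have hyPP : OPr (y : G) := S.opr (congrArg Subtype.val hyr)
  have hex : ∃ d, ∃ s1 : K, s1 ^ q = 1 ∧ π s1 = s ∧ Nat.card (Ncl s1 y) = d := by
    obtain ⟨s0, hs0⟩ := hπ s
    refine ⟨_, s0 ^ a, hpa s0, ?_, rfl⟩
    rw [map_pow, hs0, ha s hs]
  obtain ⟨s1, hs1, hs1s, hd⟩ := Nat.find_spec hex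
  have hmin := fun d (hd : d < Nat.find hex) => Nat.find_min hex hd
  have hmap : (Ncl s1 y).map π = Ncl s h := by rw [map_Ncl, hs1s, hy]
  have hst : s * τ ∈ (Ncl s1 y).map π := by
    rw [hmap]
    exact mul_mem (self_mem_Ncl s h) hτN
  obtain ⟨g, hg, hgst⟩ := hst
  -- the lifts
  obtain ⟨s', hs'⟩ : ∃ s', s' = g ^ a := ⟨_, rfl⟩
  obtain ⟨t', ht'⟩ : ∃ t', t' = g ^ b := ⟨_, rfl⟩
  have hs'3 : s' ^ q = 1 := by
    rw [hs']
    exact hpa g
  have ht'M : t' ^ 2 ^ α = 1 := by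
    rw [ht', hb', ← pow_mul, show q * b' * 2 ^ α = (2 ^ α * q) * b' from by ring, pow_mul, hexp,
      one_pow]
  have hπs' : π s' = s := by
    rw [hs', map_pow, hgst, hτs.symm.mul_pow, ha s hs, ha', pow_mul, hτ, one_pow, mul_one]
  have hπt' : π t' = τ := by
    rw [ht', map_pow, hgst, hτs.symm.mul_pow, hb τ hτ, hb', pow_mul, hs, one_pow, one_mul]
  have hts' : Commute t' s' := by
    rw [hs', ht']
    exact (Commute.refl g).pow_pow b a
  have hs'N : s' ∈ Ncl s1 y := by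
    rw [hs']
    exact pow_mem hg a
  have ht'N : t' ∈ Ncl s1 y := by
    rw [ht']
    exact pow_mem hg b
  have hle : Ncl s' y ≤ Ncl s1 y := Ncl_mono hs'N
  have heq : Ncl s' y = Ncl s1 y := by
    refine Subgroup.eq_of_le_of_card_ge hle ?_
    by_contra hlt
    push Not at hlt
    rw [hd] at hlt
    exact hmin _ hlt ⟨s', hs'3, hπs', rfl⟩
  rw [← heq] at ht'N
  have h1 : ((t' : K) : G) ∈ Ncl ((s' : K) : G) (y : G) := by
    have h2 := map_Ncl K.subtype s' y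
    change K.subtype t' ∈ Ncl (K.subtype s') (K.subtype y)
    rw [← h2]
    exact ⟨t', ht'N, rfl⟩
  have h2 := cqO S hyPP (hS s' (congrArg Subtype.val hs'3)) h1
    (congrArg Subtype.val hts'.eq) (congrArg Subtype.val ht'M)
  have h3 : t' = 1 := Subtype.ext h2
  rw [← hπt', h3, map_one]

/-- central commutators of elements with many commuting lifts -/
theorem cz {F : Type} [Group F] (V : Subgroup F) [hV : V.Normal]
    (hab : ∀ v ∈ V, ∀ w ∈ V, v * w = w * v) (hpow : ∀ v ∈ V, v ^ 2 = 1) {s h : F} {k : ℕ}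
    (hk : ¬ 2 ∣ k) (hc : (s⁻¹ * h⁻¹ * s * h) ^ k ∈ V)
    (hl : ∀ v ∈ V, ∃ c : F, (c : F ⧸ V) = ((s⁻¹ * h⁻¹ * s * h : F) : F ⧸ V) ∧ c * s = s * c ∧
      c * (v * h * v⁻¹) = (v * h * v⁻¹) * c) :
    ∀ v ∈ V, s⁻¹ * h⁻¹ * s * h * v = v * (s⁻¹ * h⁻¹ * s * h) := by
  obtain ⟨M, inst, e, Φ, einj, eV, eS, e0, eadd, esub, eΦ, ΦV, hch⟩ := act2 V hab hpow
  have hΦc : ∀ c : F, (c : F ⧸ V) = ((s⁻¹ * h⁻¹ * s * h : F) : F ⧸ V) →
      Φ c = Φ (s⁻¹ * h⁻¹ * s * h) := by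
    intro c hc
    have h1 := QuotientGroup.eq.1 hc
    have h2 := ΦV _ h1
    rw [map_mul] at h2
    have h3 : Φ c * (Φ c⁻¹ * Φ (s⁻¹ * h⁻¹ * s * h)) = Φ c * 1 := by rw [h2]
    rw [← mul_assoc, ← map_mul, mul_inv_cancel, map_one, one_mul, mul_one] at h3
    exact h3.symm
  obtain ⟨g1, hg1, hg1s, hg1h⟩ := hl 1 (one_mem _)
  rw [one_mul, inv_one, mul_one] at hg1h
  obtain ⟨γ, hγ⟩ : ∃ γ, γ = Φ (s⁻¹ * h⁻¹ * s * h) := ⟨_, rfl⟩
  have hγ1 : Φ g1 = γ := by rw [hΦc g1 hg1, hγ]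
  have hγk : γ ^ k = 1 := by
    rw [hγ, ← map_pow]
    exact ΦV _ hc
  have c1 : γ * Φ s = Φ s * γ := by rw [← hγ1, ← map_mul, hg1s, map_mul]
  have c2 : γ * Φ h = Φ h * γ := by rw [← hγ1, ← map_mul, hg1h, map_mul]
  have c3 : Φ s * Φ h = Φ h * Φ s * γ := by
    rw [hγ, ← map_mul, ← map_mul, ← map_mul]
    congr 1
    group
  have key : ∀ v : M, (γ - 1) • v = 0 := by
    refine alg_ring (A := AddMonoid.End M) (N := M) hch hk hγk (σ' := Φ s⁻¹) (ρ' := Φ h⁻¹)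
      (γ' := Φ g1⁻¹) (by rw [← map_mul, inv_mul_cancel, map_one])
      (by rw [← map_mul, inv_mul_cancel, map_one])
      (by rw [← hγ1, ← map_mul, inv_mul_cancel, map_one]) c1 c2 c3 ?_
    intro v
    obtain ⟨v0, hv0⟩ : ∃ v0, v0 = e v := ⟨_, rfl⟩
    have hv0V : v0 ∈ V := by rw [hv0]; exact eV v
    obtain ⟨g2, hg2, hg2s, hg2h⟩ := hl v0 hv0V
    obtain ⟨w, hw⟩ : ∃ w, w = g2 * g1⁻¹ := ⟨_, rfl⟩
    have hwV : w ∈ V := by
      rw [hw, ← QuotientGroup.eq_one_iff, QuotientGroup.mk_mul, QuotientGroup.mk_inv, hg1, hg2,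
        mul_inv_cancel]
    have hg2w : g2 = w * g1 := by rw [hw, inv_mul_cancel_right]
    have hws : w * s = s * w := by
      have h1 : w * s * g1 = s * w * g1 := by
        rw [mul_assoc, ← hg1s, ← mul_assoc, ← hg2w, hg2s, hg2w, mul_assoc]
      exact mul_right_cancel h1
    obtain ⟨y, hy⟩ : ∃ y, y = v0⁻¹ * w * (g1 * v0 * g1⁻¹) := ⟨_, rfl⟩
    have hg1V : g1 * v0 * g1⁻¹ ∈ V := hV.conj_mem v0 hv0V g1
    have hyV : y ∈ V := by
      rw [hy]
      exact mul_mem (mul_mem (inv_mem hv0V) hwV) hg1V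
    have hyh : y * h = h * y := by
      have h1 : y * h * g1 = h * y * g1 := by
        have e1 : h * y * g1 = v0⁻¹ * ((v0 * h * v0⁻¹) * g2) * v0 := by
          rw [hy, hg2w]
          group
        have e2 : y * h * g1 = v0⁻¹ * (g2 * (v0 * h * v0⁻¹)) * v0 := by
          rw [hy, hg2w, mul_assoc _ h g1, ← hg1h]
          group
        rw [e1, e2, hg2h]
      exact mul_right_cancel h1
    obtain ⟨w', hw'⟩ := eS w hwV
    obtain ⟨y', hy'⟩ := eS y hyV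
    have em : ∀ a : M, e (-a) = (e a)⁻¹ := by
      intro a
      have h1 := esub 0 a
      rw [zero_sub, e0, one_mul] at h1
      exact h1
    refine ⟨-w', y', ?_, ?_, ?_⟩
    · apply einj
      have h1 : e ((γ - 1) • v) = g1 * v0 * g1⁻¹ * v0⁻¹ := by
        change e (γ v - v) = _
        rw [esub, ← hγ1, eΦ, hv0]
      rw [h1, eadd, em, hw', hy', hy]
      have h2 := hab w hwV v0⁻¹ (inv_mem hv0V)
      have h3 := hab _ hg1V _ (inv_mem hv0V)
      rw [h3]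
      have e1 : w⁻¹ * (v0⁻¹ * w * (g1 * v0 * g1⁻¹)) = w⁻¹ * (v0⁻¹ * w) * (g1 * v0 * g1⁻¹) := by
        group
      rw [e1, ← h2]
      group
    · apply einj
      change e (Φ s (-w')) = _
      rw [eΦ, em, hw', ← (show w⁻¹ * s = s * w⁻¹ from by
        rw [inv_mul_eq_iff_eq_mul, ← mul_assoc, hws, mul_inv_cancel_right]),
        mul_inv_cancel_right]
    · apply einj
      change e (Φ h y') = _
      rw [eΦ, hy', ← hyh, mul_inv_cancel_right]
  intro v hv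
  obtain ⟨a, rfl⟩ := eS v hv
  have h1 := key a
  have h2 : γ a - a = 0 := h1
  rw [sub_eq_zero] at h2
  have h3 := eΦ (s⁻¹ * h⁻¹ * s * h) a
  rw [← hγ, h2] at h3
  rw [eq_mul_inv_iff_mul_eq] at h3
  exact h3.symm

/-- a finite `q`-group in which the elements of the second centre are central -/
theorem ab_of_second {T : Type} [Group T] [Finite T] {q : ℕ} (hq : q.Prime) (hT : IsPGroup q T)
    (h : ∀ y : T, (∀ t t' : T, (t * y * t⁻¹ * y⁻¹) * t' = t' * (t * y * t⁻¹ * y⁻¹)) →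
      ∀ t : T, t * y = y * t) : ∀ a b : T, a * b = b * a := by
  have : Fact q.Prime := ⟨hq⟩
  by_contra hcon
  push Not at hcon
  obtain ⟨a, b, hab⟩ := hcon
  obtain ⟨Z, hZ⟩ : ∃ Z, Z = Subgroup.center T := ⟨_, rfl⟩
  have hZn : Z.Normal := by rw [hZ]; infer_instance
  have hZm : ∀ w, w ∈ Z ↔ ∀ g : T, g * w = w * g := by
    intro w
    rw [hZ]
    exact Subgroup.mem_center_iff
  have hQq : IsPGroup q (T ⧸ Z) := hT.to_quotient Z
  have hnt : Nontrivial (T ⧸ Z) := by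
    by_contra hc
    rw [not_nontrivial_iff_subsingleton] at hc
    have h1 : b ∈ Z := by
      rw [← QuotientGroup.eq_one_iff]
      exact Subsingleton.elim _ _
    exact hab ((hZm _).1 h1 a)
  have hcn := hQq.center_nontrivial
  obtain ⟨⟨w0, hw0⟩, hw01⟩ := exists_ne (1 : Subgroup.center (T ⧸ Z))
  obtain ⟨w, rfl⟩ := QuotientGroup.mk_surjective w0
  have hwZ : w ∉ Z := by
    intro h1
    apply hw01
    apply Subtype.ext
    exact (QuotientGroup.eq_one_iff w).2 h1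
  apply hwZ
  rw [hZm]
  refine h w fun t t' => ?_
  have h1 : t * w * t⁻¹ * w⁻¹ ∈ Z := by
    have h1 := (Subgroup.mem_center_iff.1 hw0) (t : T ⧸ Z)
    rw [← QuotientGroup.eq_one_iff]
    change (t : T ⧸ Z) * (w : T ⧸ Z) * (t : T ⧸ Z)⁻¹ * (w : T ⧸ Z)⁻¹ = 1
    rw [h1]
    group
  exact ((hZm _).1 h1 t').symm

end Pool.Agent.V5helper30.OP
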