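import Mathlib
import Pool.Agent.V5helper30.OP.ExcB

set_option autoImplicit false

/-!
# One generator of odd prime order: the exceptional prime divisors of `2 ^ α * q`
-/

namespace Pool.Agent.V5helper30.OP

open Pool.Agent.H32BU Pool.Agent.W629 Pool.Agent.TH69.Mtn Pool.Agent.TH69.Od Pool.Agent.TH69.Og
open Pool.Agent.TH69.Oh Pool.Agent.TH69.Ok Pool.Agent.TH69.Pq Pool.Agent.N6.Pf

variable {G : Type} [Group G] {n q α : ℕ}

/-- central commutators are trivial, the prime three -/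
theorem hcc3 {G : Type} [Group G] {n α : ℕ} (hα : 1 ≤ α) (S : Sq n 3 α G)
    {F : Type} [Group F] [Finite F]
    (hI : Im G F) (hF : ∀ x : F, x ^ (2 ^ α * 3) = 1) (V L : Subgroup F) [hVn : V.Normal]
    (_hVL : V ≤ L)
    (hab : ∀ v ∈ V, ∀ w ∈ V, v * w = w * v) (hpow : ∀ v ∈ V, v ^ 2 = 1)
    (hLq : ∀ y ∈ L, y ^ 3 ∈ V) (hC : ∀ y ∈ L, (∀ v ∈ V, y * v = v * y) → y ∈ V)
    {s h : F} (hsL : s ∈ L) (hhL : h ∈ L) (hs : s ^ 3 = 1) (hh : h ^ 3 = 1) :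
    s⁻¹ * h⁻¹ * s * h ∈ V := by
  have hcL : s⁻¹ * h⁻¹ * s * h ∈ L :=
    mul_mem (mul_mem (mul_mem (inv_mem hsL) (inv_mem hhL)) hsL) hhL
  refine hC _ hcL ?_
  refine cz V hab hpow (k := 3) (by norm_num) (hLq _ hcL) fun v hv => ?_
  obtain ⟨y, hy⟩ : ∃ y, y = v * h * v⁻¹ := ⟨_, rfl⟩
  have hy3 : y ^ 3 = 1 := by rw [hy, conj_pow, hh, mul_one, mul_inv_cancel]
  have hyV : (y : F ⧸ V) = h := by
    rw [hy, QuotientGroup.mk_mul, QuotientGroup.mk_mul, QuotientGroup.mk_inv,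
      (QuotientGroup.eq_one_iff v).2 hv, one_mul, inv_one, mul_one]
  have hyH : y ∈ c2 s y := Subgroup.subset_closure (by simp)
  obtain ⟨c, r, hcH, hrH, -, hr, hc, hcs, hcr, hct⟩ := cent_cO hα S hI hF V hab hpow (s := s)
    (h := y) hy3 hs (L.map (QuotientGroup.mk' V)) (by
      rintro _ ⟨l, hl, rfl⟩
      have := hLq l hl
      rwa [← QuotientGroup.eq_one_iff, QuotientGroup.mk_pow] at this) ⟨s, hsL, rfl⟩
    (s2 := (h : F ⧸ V)) ⟨h, hhL, rfl⟩ ⟨y, hyH, hyV⟩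
  rw [← hy]
  refine ⟨c, ?_, hcs, ?_⟩
  · rw [hc]
    simp only [QuotientGroup.mk_mul, QuotientGroup.mk_inv, hr]
    group
  · have ht : r⁻¹ * y ∈ V := by
      rw [← QuotientGroup.eq, hr, hyV]
    have h1 := hct _ ht (mul_mem (inv_mem hrH) hyH)
    have e : y = r * (r⁻¹ * y) := by group
    rw [e, ← mul_assoc, hcr.eq, mul_assoc, ← h1, ← mul_assoc]

/-- central commutators are trivial, the other primes -/
theorem hccq (S : Sq n q α G) (hS : ∀ s : G, s ^ q = 1 → SG (q ^ 1) (2 ^ α) s) (hα : 1 ≤ α)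
    {F : Type} [Group F] [Finite F]
    (hI : Im G F) (hF : ∀ x : F, x ^ (2 ^ α * q) = 1) (V L : Subgroup F) [hVn : V.Normal]
    (hVL : V ≤ L)
    (hab : ∀ v ∈ V, ∀ w ∈ V, v * w = w * v) (hpow : ∀ v ∈ V, v ^ 2 = 1)
    (hLq : ∀ y ∈ L, y ^ q ∈ V) (hC : ∀ y ∈ L, (∀ v ∈ V, y * v = v * y) → y ∈ V)
    {s h : F} (hsL : s ∈ L) (hhL : h ∈ L) (hs : s ^ q = 1) (hh : h ^ q = 1)
    (hcs : (s : F ⧸ V) * ((s⁻¹ * h⁻¹ * s * h : F) : F ⧸ V) =
      ((s⁻¹ * h⁻¹ * s * h : F) : F ⧸ V) * s)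
    (hch : (h : F ⧸ V) * ((s⁻¹ * h⁻¹ * s * h : F) : F ⧸ V) =
      ((s⁻¹ * h⁻¹ * s * h : F) : F ⧸ V) * h) :
    s⁻¹ * h⁻¹ * s * h ∈ V := by
  have hq := S.hq
  have hq2 := S.hq2
  have h2q : Nat.Coprime 2 q := S.S.h2m
  have hcL : s⁻¹ * h⁻¹ * s * h ∈ L :=
    mul_mem (mul_mem (mul_mem (inv_mem hsL) (inv_mem hhL)) hsL) hhL
  refine hC _ hcL ?_
  refine cz V hab hpow (k := q) S.S.hm (hLq _ hcL) fun v hv => ?_
  obtain ⟨y, hy⟩ : ∃ y, y = v * h * v⁻¹ := ⟨_, rfl⟩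
  have hyq : y ^ q = 1 := by rw [hy, conj_pow, hh, mul_one, mul_inv_cancel]
  have hyV : (y : F ⧸ V) = h := by
    rw [hy, QuotientGroup.mk_mul, QuotientGroup.mk_mul, QuotientGroup.mk_inv,
      (QuotientGroup.eq_one_iff v).2 hv, one_mul, inv_one, mul_one]
  have hyL : y ∈ L := by
    rw [hy]
    exact mul_mem (mul_mem (hVL hv) hhL) (inv_mem (hVL hv))
  obtain ⟨H, hH⟩ : ∃ H, H = c2 s y := ⟨_, rfl⟩
  have hsH : s ∈ H := by rw [hH]; exact Subgroup.subset_closure (by simp)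
  have hyH : y ∈ H := by rw [hH]; exact Subgroup.subset_closure (by simp)
  rw [← hy]
  obtain ⟨c, hc⟩ : ∃ c, c = s⁻¹ * (y⁻¹ * s * y) := ⟨_, rfl⟩
  have hcH : c ∈ H := by
    rw [hc]
    exact mul_mem (inv_mem hsH) (mul_mem (mul_mem (inv_mem hyH) hsH) hyH)
  have hcV : (c : F ⧸ V) = ((s⁻¹ * h⁻¹ * s * h : F) : F ⧸ V) := by
    rw [hc]
    simp only [QuotientGroup.mk_mul, QuotientGroup.mk_inv, hyV]
    group
  have hcN : c ∈ Ncl s y := by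
    rw [hc]
    refine mul_mem (inv_mem (self_mem_Ncl s y)) ?_
    have h1 := Ncl_conj (s := s) (y := y) (g := y⁻¹) (inv_mem (Subgroup.subset_closure (by simp)))
      (self_mem_Ncl s y)
    rwa [inv_inv] at h1
  have hcL' : c ∈ L := by
    rw [hc]
    exact mul_mem (inv_mem hsL) (mul_mem (mul_mem (inv_mem hyL) hsL) hyL)
  have hNn : ((Ncl s y).subgroupOf H).Normal :=
    ⟨fun x hx g => Ncl_conj (by rw [← hH]; exact g.2) hx⟩
  have key := cent_cq hq hq2 (H := H) (V.subgroupOf H) ((Ncl s y).subgroupOf H)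
    (fun v hv w hw => Subtype.ext (hab v hv w hw)) (fun v hv => Subtype.ext (hpow v hv))
    (s := ⟨s, hsH⟩) (y := ⟨y, hyH⟩) (c := ⟨c, hcH⟩) (Subtype.ext hs)
    (fun τ hτV hτN hτs => by
      have h2α : (τ : F) ^ 2 ^ α = 1 := by
        obtain ⟨k, hk⟩ : 2 ∣ 2 ^ α := dvd_pow_self 2 (by omega)
        have h0 : (τ : F) ^ 2 = 1 := hpow _ hτV
        rw [hk, pow_mul, h0, one_pow]
      exact Subtype.ext (cqfO S hS hI hyq hs (τ := (τ : F)) hτN (congrArg Subtype.val hτs) h2α))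
    hcN (Subtype.ext (by
      change y⁻¹ * s * y = s * c
      rw [hc]
      group))
    (hLq c hcL')
    (by
      change s * c * s⁻¹ * c⁻¹ ∈ V
      rw [← QuotientGroup.eq_one_iff]
      simp only [QuotientGroup.mk_mul, QuotientGroup.mk_inv]
      rw [hcV, hcs]
      group)
    (by
      change y * c * y⁻¹ * c⁻¹ ∈ V
      rw [← QuotientGroup.eq_one_iff]
      simp only [QuotientGroup.mk_mul, QuotientGroup.mk_inv]
      rw [hcV, hyV, hch]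
      group)
  have key' : ∀ t ∈ V, t ∈ H → Commute t c := fun t ht htH =>
    congrArg Subtype.val (key ⟨t, htH⟩ ht)
  obtain ⟨a, b, ⟨a', ha'⟩, -, ha, -, -⟩ := crt S.hM
  obtain ⟨c', hc'⟩ : ∃ c', c' = c ^ a := ⟨_, rfl⟩
  have hc'q : c' ^ q = 1 := by
    rw [hc', ← pow_mul, ha', show 2 ^ α * a' * q = (2 ^ α * q) * a' from by ring, pow_mul, hF,
      one_pow]
  have hc'V : (c' : F ⧸ V) = ((s⁻¹ * h⁻¹ * s * h : F) : F ⧸ V) := by
    rw [hc', QuotientGroup.mk_pow, hcV]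
    apply ha
    rw [← QuotientGroup.mk_pow, QuotientGroup.eq_one_iff]
    exact hLq _ hcL
  have hc'H : c' ∈ H := by
    rw [hc']
    exact pow_mem hcH a
  have hc't : ∀ t ∈ V, t ∈ H → Commute c' t := by
    intro t ht htH
    rw [hc']
    exact ((key' t ht htH).pow_right a).symm
  have comm : ∀ g ∈ H, (g : F ⧸ V) * (c' : F ⧸ V) = (c' : F ⧸ V) * g → c' * g = g * c' := by
    intro g hg hgc
    obtain ⟨κ, hκ⟩ : ∃ κ, κ = c' * g * c'⁻¹ * g⁻¹ := ⟨_, rfl⟩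
    have hκV : κ ∈ V := by
      rw [hκ, ← QuotientGroup.eq_one_iff]
      simp only [QuotientGroup.mk_mul, QuotientGroup.mk_inv]
      rw [← hgc]
      group
    have hκH : κ ∈ H := by
      rw [hκ]
      exact mul_mem (mul_mem (mul_mem hc'H hg) (inv_mem hc'H)) (inv_mem hg)
    have h6 := W629.comm_pow (x := c') (y := g) (c := κ) hκ.symm (hc't κ hκV hκH) q
    have h7 : κ ^ q = 1 := by
      rw [← h6, hc'q]
      group
    have h8 := W629.eq_one_of_coprime h2q (hpow κ hκV) h7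
    rw [h8, eq_comm, mul_inv_eq_one, mul_inv_eq_iff_eq_mul] at hκ
    exact hκ
  refine ⟨c', hc'V, comm s hsH (by rw [hc'V]; exact hcs), comm y hyH ?_⟩
  rw [hc'V, hyV]
  exact hch

/-- the `q`-group modulo `V` is commutative -/
theorem ab_core (hq : q.Prime) {M : ℕ} (hM : Nat.Coprime M q)
    {F : Type} [Group F] [Finite F] (hF : ∀ x : F, x ^ (M * q) = 1)
    (V L : Subgroup F) [hVn : V.Normal] (hLq : ∀ y ∈ L, y ^ q ∈ V)
    (hcc : ∀ s h : F, s ∈ L → h ∈ L → s ^ q = 1 → h ^ q = 1 →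
      (s : F ⧸ V) * ((s⁻¹ * h⁻¹ * s * h : F) : F ⧸ V) = ((s⁻¹ * h⁻¹ * s * h : F) : F ⧸ V) * s →
      (h : F ⧸ V) * ((s⁻¹ * h⁻¹ * s * h : F) : F ⧸ V) = ((s⁻¹ * h⁻¹ * s * h : F) : F ⧸ V) * h →
      s⁻¹ * h⁻¹ * s * h ∈ V) :
    ∀ a ∈ L, ∀ b ∈ L, (a : F ⧸ V) * b = b * a := by
  obtain ⟨T, hT⟩ : ∃ T, T = L.map (QuotientGroup.mk' V) := ⟨_, rfl⟩
  have hTq : ∀ y ∈ T, y ^ q = 1 := by
    intro y hy
    rw [hT] at hy
    obtain ⟨l, hl, rfl⟩ := hy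
    have := hLq l hl
    rw [← QuotientGroup.eq_one_iff, QuotientGroup.mk_pow] at this
    exact this
  obtain ⟨a0, b0, ⟨a', ha'⟩, -, ha, -, -⟩ := crt hM
  have hlift : ∀ y ∈ T, ∃ s ∈ L, s ^ q = 1 ∧ (s : F ⧸ V) = y := by
    intro y hy
    have hyq := hTq y hy
    rw [hT] at hy
    obtain ⟨l, hl, rfl⟩ := hy
    refine ⟨l ^ a0, pow_mem hl _, ?_, ?_⟩
    · rw [← pow_mul, ha', show M * a' * q = (M * q) * a' from by ring, pow_mul, hF, one_pow]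
    · rw [QuotientGroup.mk_pow]
      exact ha _ hyq
  have h1 := ab_of_second (T := T) hq (fun y => ⟨1, by
      rw [pow_one]
      exact Subtype.ext (hTq y y.2)⟩) (by
    rintro ⟨y, hy⟩ hyc ⟨t, ht⟩
    apply Subtype.ext
    change t * y = y * t
    obtain ⟨s, hsL, hs, rfl⟩ := hlift y hy
    obtain ⟨h, hhL, hh, rfl⟩ := hlift t ht
    have hyc' : ∀ t ∈ T, ∀ t' ∈ T, (t * (s : F ⧸ V) * t⁻¹ * (s : F ⧸ V)⁻¹) * t' =
        t' * (t * (s : F ⧸ V) * t⁻¹ * (s : F ⧸ V)⁻¹) := fun t ht t' ht' =>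
      congrArg Subtype.val (hyc ⟨t, ht⟩ ⟨t', ht'⟩)
    have h2 := hyc' (h : F ⧸ V)⁻¹ (inv_mem ht)
    obtain ⟨k, hk⟩ : ∃ k, k = (h : F ⧸ V)⁻¹ * (s : F ⧸ V) * (h : F ⧸ V)⁻¹⁻¹ * (s : F ⧸ V)⁻¹ :=
      ⟨_, rfl⟩
    rw [← hk] at h2
    have h3 : ((s⁻¹ * h⁻¹ * s * h : F) : F ⧸ V) = k := by
      have h4 := h2 (s : F ⧸ V) hy
      have h5 : ((s⁻¹ * h⁻¹ * s * h : F) : F ⧸ V) = (s : F ⧸ V)⁻¹ * (k * s) := by
        simp only [QuotientGroup.mk_mul, QuotientGroup.mk_inv]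
        rw [hk]
        group
      rw [h5, h4, inv_mul_cancel_left]
    have h4 := hcc s h hsL hhL hs hh (by rw [h3]; exact (h2 _ hy).symm)
      (by rw [h3]; exact (h2 _ ht).symm)
    rw [← QuotientGroup.eq_one_iff] at h4
    simp only [QuotientGroup.mk_mul, QuotientGroup.mk_inv] at h4
    calc (h : F ⧸ V) * s = h * s * ((s : F ⧸ V)⁻¹ * (h : F ⧸ V)⁻¹ * s * h) := by rw [h4, mul_one]
      _ = s * h := by group)
  intro a haL b hbL
  have h2 := h1 ⟨(a : F ⧸ V), by rw [hT]; exact ⟨a, haL, rfl⟩⟩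
    ⟨(b : F ⧸ V), by rw [hT]; exact ⟨b, hbL, rfl⟩⟩
  exact congrArg Subtype.val h2

/-- the configuration of the theorem of Hall and Higman with commutative `L / V` -/
theorem conf_ab (hq : q.Prime) (hq2 : q ≠ 2) (hα : 1 ≤ α)
    {F : Type} [Group F] [Finite F] (hF : ∀ x : F, x ^ (2 ^ α * q) = 1) {x : F}
    (hx : x ^ 2 ^ α = 1) (V L : Subgroup F) [hV : V.Normal] (hVL : V ≤ L)
    (hab : ∀ v ∈ V, ∀ w ∈ V, v * w = w * v) (hpow : ∀ v ∈ V, v ^ 2 = 1)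
    (hLq : ∀ y ∈ L, y ^ q ∈ V) (hxL : ∀ y ∈ L, x * y * x⁻¹ ∈ L)
    (hC : ∀ y ∈ L, (∀ v ∈ V, y * v = v * y) → y ∈ V)
    (hcm : ∀ a ∈ L, ∀ b ∈ L, (a : F ⧸ V) * b = b * a) {s : F} (hs : s ∈ L) :
    x ^ 2 ^ (α - 1) * s * (x ^ 2 ^ (α - 1))⁻¹ * s⁻¹ ∈ V := by
  have hxn : x ∈ Subgroup.normalizer (L : Set F) := mem_norm (Nat.pow_pos (by norm_num)) hx hxL
  obtain ⟨F', hF'⟩ : ∃ F', F' = XZs L x hxn := ⟨_, rfl⟩
  have hxF' : x ∈ F' := by
    rw [hF']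
    refine ⟨-1, ?_⟩
    rw [zpow_neg_one, mul_inv_cancel]
    exact one_mem _
  have hLF' : L ≤ F' := by
    intro y hy
    rw [hF']
    refine ⟨0, ?_⟩
    rwa [zpow_zero, mul_one]
  have hF'n : F' ≤ Subgroup.normalizer (L : Set F) := by
    intro y hy
    rw [hF'] at hy
    obtain ⟨j, hj⟩ := hy
    have h1 := mul_mem (Subgroup.le_normalizer hj) (inv_mem (zpow_mem hxn j))
    rwa [mul_inv_cancel_right] at h1
  exact no_confC (p := 2) (q := q) (β := 1) Nat.prime_two hq hq2.symm hα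
    (F := F') (fun y => Subtype.ext (by rw [pow_one]; exact hF y)) (x := ⟨x, hxF'⟩)
    (Subtype.ext hx) (V.subgroupOf F') (L.subgroupOf F')
    ⟨fun v hv g => hV.conj_mem v hv g⟩
    ⟨fun v hv g => ((Subgroup.mem_normalizer_iff.1 (hF'n g.2)) v).1 hv⟩
    (fun v hv => hVL hv) (fun v hv w hw => Subtype.ext (hab v hv w hw))
    (fun v hv => Subtype.ext (hpow v hv))
    (fun y hy => by
      change (y : F) ^ q ^ 1 ∈ V
      rw [pow_one]
      exact hLq y hy)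
    (fun a ha b hb => by
      change (a : F) * b * (a : F)⁻¹ * (b : F)⁻¹ ∈ V
      have h7 : ((a : F) : F ⧸ V) * ((b : F) : F ⧸ V) = (b : F) * (a : F) := hcm _ ha _ hb
      rw [← QuotientGroup.eq_one_iff]
      have h8 : (((a : F) * b * (a : F)⁻¹ * (b : F)⁻¹ : F) : F ⧸ V) =
        ((a : F) : F ⧸ V) * ((b : F) : F ⧸ V) * ((a : F) : F ⧸ V)⁻¹ * ((b : F) : F ⧸ V)⁻¹ := rfl
      rw [h8, h7]
      group)
    (fun y hy hyv => hC y hy fun v hv => congrArg Subtype.val (hyv ⟨v, hLF' (hVL hv)⟩ hv))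
    (s := ⟨s, hLF' hs⟩) hs

/-- the configuration does not occur for the exponent `2 ^ α * q` -/
theorem noC_q (hα : 1 ≤ α) (S : Sq n q α G) (hex : q = 3 ∨ ∀ k : ℕ, 1 ≤ k → 2 ^ k ≠ q - 1) :
    NoC G α q q := by
  intro F _ _ hI hF x hx V L hV hVL hab hpow hLq hxL hC s hs
  have hq := S.hq
  have hq2 := S.hq2
  have hLq' : ∀ y ∈ L, y ^ q ∈ V := by
    intro y hy
    obtain ⟨j, hj⟩ := hLq y hy
    have h1 := pow_mem_of (V := V) (a := 2 ^ α) (q := q) (β := 1) (m' := 1) hq S.hM.symm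
      (Nat.coprime_one_right q) (by rw [pow_one, mul_one]; exact hF y) hj
    rwa [pow_one] at h1
  refine conf_ab hq hq2 hα hF hx V L hVL hab hpow hLq' hxL hC ?_ hs
  refine ab_core hq S.hM hF V L hLq' fun s h hsL hhL hs hh hcs hch => ?_
  rcases hex with rfl | hex
  · exact hcc3 hα S hI hF V L hVL hab hpow hLq' hC hsL hhL hs hh
  · exact hccq S (fun s hs => ssq S hex hs) hα hI hF V L hVL hab hpow hLq' hC hsL hhL hs hh hcs hch

end Pool.Agent.V5helper30.OP
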