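import Mathlib
import Pool.Agent.V5helper30.OP.ExcC
import Pool.Agent.N6.PgD

set_option autoImplicit false

/-!
# One generator of odd prime order: the theorems
-/

namespace Pool.Agent.V5helper30.OP

open Pool.Agent.H32BU Pool.Agent.W629 Pool.Agent.TH69.Mtn Pool.Agent.TH69.Od Pool.Agent.TH69.Og
open Pool.Agent.TH69.Oh Pool.Agent.TH69.Ok Pool.Agent.TH69.Pq Pool.Agent.N6.Pf
open Pool.Agent.N6.Pg (Cq cq2 rad_quot Ne)

universe u v

/-- the configurations of the theorem of Hall and Higman do not occur -/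
def AllNoC (m α : ℕ) : Prop := ∀ (G : Type) [Group G] (β n : ℕ), 1 ≤ β → β ≤ α → So n m β G →
  Rad (2 ^ β) G = ⊥ → ∀ q : ℕ, q.Prime → q ∣ m → NoC G β m q

theorem allNoC_of {m α : ℕ} (h2m : ¬ 2 ∣ m)
    (h : ∀ μ : ℕ, 2 ≤ μ → μ ≤ α → (2 ^ μ - 1).Prime → ¬ (2 ^ μ - 1) ∣ m) : AllNoC m α := by
  intro G _ β n h1 h2 _ _ q hq hqm
  have hq2 : q ≠ 2 := by
    rintro rfl
    exact h2m hqm
  refine noC_of_hex hq hq2 h1 h2m ?_
  intro μ hμ1 hμ2 r hr h3
  obtain ⟨h4, h5⟩ := mersenne hq hr h3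
  exact h μ h5 (by omega) (h4 ▸ hq) (h4 ▸ hqm)

theorem allNoC_q {q b α : ℕ} (hq : q.Prime) (hq2 : q ≠ 2) (hE : Ne q α b) :
    AllNoC (q ^ b) α := by
  intro G _ β n h1 h2 S r2 r hr hrm
  have hrq : r = q := (Nat.prime_dvd_prime_iff_eq hr hq).1 (hr.dvd_of_dvd_pow hrm)
  subst hrq
  by_cases hex : ∀ μ, 1 ≤ μ → μ ≤ β → ∀ k, 1 ≤ k → r ^ k ≠ 2 ^ μ - 1
  · exact noC_of_hex hq hq2 h1 S.hm hex
  push Not at hex
  obtain ⟨μ, hμ1, hμ2, k, hk, h⟩ := hex
  obtain ⟨h3, h4⟩ := mersenne hq hk h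
  have hb1 := hE μ h4 (by omega) h3
  have hb : b = 1 := by
    rcases Nat.eq_zero_or_pos b with h0 | h0
    · subst h0
      rw [pow_zero] at hrm
      exact absurd (Nat.dvd_one.1 hrm) hq.one_lt.ne'
    · omega
  subst hb
  rw [pow_one] at S ⊢
  refine noC_q h1 ⟨S, hq, r2⟩ ?_
  by_cases hμ : μ = 2
  · left
    rw [h3, hμ]
    norm_num
  · right
    intro k hk h8
    obtain ⟨ν, rfl⟩ : ∃ ν, μ = ν + 3 := ⟨μ - 3, by omega⟩
    obtain ⟨j, rfl⟩ : ∃ j, k = j + 1 := ⟨k - 1, by omega⟩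
    have h9 : 2 ^ (ν + 3) = 8 * 2 ^ ν := by ring
    have h10 : 0 < 2 ^ ν := Nat.pow_pos (by norm_num)
    rw [h3, h9, pow_succ] at h8
    obtain ⟨i, rfl | rfl⟩ : ∃ i, j = 0 ∨ j = i + 1 := by
      rcases j with _ | j
      · exact ⟨0, Or.inl rfl⟩
      · exact ⟨j, Or.inr rfl⟩
    · omega
    · rw [pow_succ] at h8
      omega

/-- groups without normal subgroups of exponent `m` or a power of two -/
theorem trivO {m : ℕ} : ∀ (α : ℕ) {n : ℕ} {G : Type} [Group G], So n m α G → AllNoC m α →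
    Rad m G = ⊥ → Rad (2 ^ α) G = ⊥ → ∀ x : G, x = 1 := by
  intro α
  induction α with
  | zero =>
    intro n G _ S _ rm _ x
    have h1 : ∀ y : G, y ^ m = 1 := by
      intro y
      have := S.hexp y
      rwa [pow_zero, one_mul] at this
    have h2 : x ∈ Rad m G := ⟨h1 x, fun z _ => h1 _⟩
    rwa [rm, Subgroup.mem_bot] at h2
  | succ α ih =>
    intro n G _ S hNC rm r2
    have hα : 1 ≤ α + 1 := by omega
    have hexp : ∀ x : G, x ^ (2 ^ α * m) = 1 := by
      intro x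
      have h3 : (x ^ m) ^ 2 ^ (α + 1) = 1 := by rw [← pow_mul, S.hexp']
      have h4 := ssO S hα (hNC G (α + 1) n hα le_rfl S r2) h3
      rw [Nat.add_sub_cancel] at h4
      have h5 : (x ^ m) ^ 2 ^ α * (x ^ m) ^ 2 ^ α = 1 := by
        rw [← pow_two, ← pow_mul, ← pow_succ, h3]
      by_contra hne
      have hw1 : (x ^ m) ^ 2 ^ α ≠ 1 := by
        rw [← pow_mul, mul_comm]
        exact hne
      obtain ⟨v, hvp, hv1, hl⟩ := invol S r2 h5 hw1
      exact no_inv S rm h4 hvp hv1 hl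
    have hup : ∀ y : G, y ^ 2 ^ α = 1 → y ^ 2 ^ (α + 1) = 1 := by
      intro y hy
      rw [pow_succ, pow_mul, hy, one_pow]
    refine ih (n := 2 ^ α * m) ⟨S.hm, rfl, hexp, S.f1,
      fun h x f hx hf => S.f2 (by omega) x f (hup x hx) hf,
      fun h w z hw hz => S.f3 (by omega) w z hw (hup z hz)⟩
      (fun G _ β n' h1 h2 S' r => hNC G β n' h1 (by omega) S' r) rm ?_
    have h6 := le_rad (G := G) (a := 2 ^ (α + 1)) (b := m) S.cop S.hexp
      (Rad (2 ^ α) G) (fun x hx => by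
        rw [pow_succ, pow_mul, rad_pow hx, one_pow])
    rw [r2] at h6
    exact le_bot_iff.1 h6

/-- the hypotheses on the group, in all universes -/
structure Hy (m α : ℕ) (G : Type u) [Group G] : Prop where
  exp : ∀ x : G, x ^ (2 ^ α * m) = 1
  f1 : ∀ x y : G, OPr y → Finite (Subgroup.closure {x, y}) ∧
    Group.IsSolvable (Subgroup.closure {x, y})
  f2 : 2 ≤ α → ∀ x f : G, x ^ 2 ^ α = 1 → OPP f → Finite (Subgroup.closure {x, f}) ∧
    Group.IsSolvable (Subgroup.closure {x, f})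
  f3 : 3 ≤ α → ∀ w z : G, w ^ 2 = 1 → z ^ 2 ^ α = 1 →
    Finite (Subgroup.closure {w, z}) ∧ Group.IsSolvable (Subgroup.closure {w, z})

theorem Hy.so {m α : ℕ} (hm : ¬ 2 ∣ m) {G : Type} [Group G] (H : Hy m α G) :
    So (2 ^ α * m) m α G := ⟨hm, rfl, H.exp, H.f1, H.f2, H.f3⟩

theorem OPr.map {G : Type u} {H : Type v} [Group G] [Group H] {y : G} (h : OPr y) (f : G →* H) :
    OPr (f y) := by
  obtain ⟨s, h1, h2, h3⟩ := h
  exact ⟨s, h1, h2, by rw [← map_pow, h3, map_one]⟩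

theorem OPP.map' {G : Type u} {H : Type v} [Group G] [Group H] {y : G} (h : OPP y) (f : G →* H) :
    OPP (f y) := by
  obtain ⟨s, k, h1, h2, h3⟩ := h
  exact ⟨s, k, h1, h2, by rw [← map_pow, h3, map_one]⟩

theorem fs_transfer {Q : Type v} {G : Type u} [Group Q] [Group G] (f : Q →* G)
    (hf : Function.Injective f) (x y : Q)
    (h : Finite (Subgroup.closure {f x, f y}) ∧ Group.IsSolvable (Subgroup.closure {f x, f y})) :
    Finite (Subgroup.closure {x, y}) ∧ Group.IsSolvable (Subgroup.closure {x, y}) := by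
  have e : (Subgroup.closure {x, y}).map f = Subgroup.closure {f x, f y} := by
    rw [MonoidHom.map_closure, Set.image_pair]
  rw [← e] at h
  obtain ⟨h1, h2⟩ := h
  have eq := (Subgroup.closure {x, y}).equivMapOfInjective f hf
  exact ⟨Finite.of_equiv _ eq.symm.toEquiv,
    Group.isSolvable_of_surjective (f := eq.symm.toMonoidHom) eq.symm.surjective⟩

theorem Hy.transfer {m α : ℕ} {Q : Type v} {G : Type u} [Group Q] [Group G] (H : Hy m α G)
    (f : Q →* G) (hf : Function.Injective f) : Hy m α Q where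
  exp x := hf (by rw [map_pow, map_one]; exact H.exp _)
  f1 x y hy := fs_transfer f hf x y (H.f1 _ _ (hy.map f))
  f2 h x y hx hy := fs_transfer f hf x y (H.f2 h _ _ (by rw [← map_pow, hx, map_one])
    (hy.map' f))
  f3 h w z hw hz := fs_transfer f hf w z (H.f3 h _ _ (by rw [← map_pow, hw, map_one])
    (by rw [← map_pow, hz, map_one]))

/-- triviality of groups with trivial radicals, all universes -/
theorem trivO_u {m α : ℕ} (hm : ¬ 2 ∣ m) (hN : AllNoC m α) (G : Type u) [Group G]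
    (H : Hy m α G) (rm : Rad m G = ⊥) (r2 : Rad (2 ^ α) G = ⊥) (g : G) : g = 1 := by
  classical
  have hex : ∀ (P : ℕ) (e : G), ∃ z : G, Rad P G = ⊥ → e ≠ 1 → e ^ P = 1 →
      z ^ P = 1 ∧ (e * z) ^ P ≠ 1 := by
    intro P e
    by_contra hcon
    push Not at hcon
    obtain ⟨hR, he1, he, -⟩ := hcon 1
    apply he1
    have h3 : e ∈ Rad P G := ⟨he, fun z hz => (hcon z).2.2.2 hz⟩
    rw [hR] at h3
    exact h3
  choose f hf using hex
  obtain ⟨C, hC, hgC, hfC⟩ := exists_closed f g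
  have hsm : Small.{0} C := inferInstance
  let e : Shrink.{0} C ≃* C := Shrink.mulEquiv
  let φ : Shrink.{0} C →* G := C.subtype.comp e.toMonoidHom
  have hφ : Function.Injective φ := fun x y hxy => e.injective (Subtype.ext hxy)
  have hmem : ∀ x, φ x ∈ C := fun x => (e x).2
  have key : ∀ P : ℕ, Rad P G = ⊥ → Rad P (Shrink.{0} C) = ⊥ := by
    intro P hP
    rw [Subgroup.eq_bot_iff_forall]
    rintro x ⟨hx, hx'⟩
    by_contra hne
    obtain ⟨h4, h5⟩ := hf P (φ x) hP (fun h => hne (hφ (by rw [h, map_one])))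
      (by rw [← map_pow, hx, map_one])
    obtain ⟨z, hz⟩ : ∃ z, φ z = f P (φ x) := by
      refine ⟨e.symm ⟨f P (φ x), hfC P _ (hmem x)⟩, ?_⟩
      change ((e (e.symm _) : C) : G) = _
      rw [MulEquiv.apply_symm_apply]
    have h6 := hx' z (hφ (by rw [map_pow, hz, h4, map_one]))
    apply h5
    rw [← hz, ← map_mul, ← map_pow, h6, map_one]
  have h3 := trivO α (n := 2 ^ α * m) (G := Shrink.{0} C) ((H.transfer φ hφ).so hm) hN
    (key _ rm) (key _ r2) (e.symm ⟨g, hgC⟩)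
  have h4 := congrArg φ h3
  rw [map_one] at h4
  have h5 : φ (e.symm ⟨g, hgC⟩) = g := by
    change ((e (e.symm _) : C) : G) = _
    rw [MulEquiv.apply_symm_apply]
  rw [← h5, h4]

/-- normal subgroups -/
theorem exists_normalO {m α : ℕ} (hm : ¬ 2 ∣ m) (hN : AllNoC m α) (G : Type u) [Group G]
    (H : Hy m α G) (hnt : Nontrivial G) :
    ∃ N : Subgroup G, N.Normal ∧ N ≠ ⊥ ∧
      ((∀ x ∈ N, x ^ 2 ^ α = 1) ∨ ∀ x ∈ N, x ^ m = 1) := by
  by_contra hcon
  push Not at hcon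
  obtain ⟨g, hg⟩ := exists_ne (1 : G)
  apply hg
  refine trivO_u hm hN G H ?_ ?_ g
  · by_contra hne
    obtain ⟨x, hx, hx'⟩ := (hcon (Rad m G) inferInstance hne).2
    exact hx' hx.1
  · by_contra hne
    obtain ⟨x, hx, hx'⟩ := (hcon (Rad (2 ^ α) G) inferInstance hne).1
    exact hx' hx.1

theorem fs_of_surj {Q : Type u} [Group Q] (hQ : Finite Q ∧ Group.IsSolvable Q) {G : Type v}
    [Group G] (f : Q →* G) {K : Subgroup G} (h : f.range = K) :
    Finite K ∧ Group.IsSolvable K := by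
  obtain ⟨h1, h2⟩ := hQ
  rw [← h]
  exact ⟨Finite.of_surjective f.rangeRestrict f.rangeRestrict_surjective,
    Group.isSolvable_of_surjective f.rangeRestrict_surjective⟩

/-- cyclic groups -/
theorem c2_one {G : Type u} [Group G] {n : ℕ} (hn : n ≠ 0) {x : G} (hx : x ^ n = 1) :
    Finite (Subgroup.closure {x, 1}) ∧ Group.IsSolvable (Subgroup.closure {x, 1}) := by
  have h1 : (Subgroup.zpowers x) = Subgroup.closure {x, 1} := by
    apply le_antisymm
    · rw [Subgroup.zpowers_le]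
      exact Subgroup.subset_closure (by simp)
    · rw [Subgroup.closure_le]
      rintro y (rfl | hy)
      · exact Subgroup.mem_zpowers _
      · rw [Set.mem_singleton_iff.1 hy]
        exact one_mem _
  rw [← h1]
  refine ⟨?_, Group.isSolvable_of_comm fun a b => mul_comm' a b⟩
  have h2 : IsOfFinOrder x := isOfFinOrder_iff_pow_eq_one.2 ⟨n, Nat.pos_of_ne_zero hn, hx⟩
  exact (Set.finite_coe_iff.2 (finite_zpowers.2 h2))

/-- elements of odd prime order, bounding the prime -/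
theorem opr_cases {m α : ℕ} {G : Type u} [Group G] (hG : ∀ x : G, x ^ (2 ^ α * m) = 1) {y : G}
    (hy : OPr y) : y = 1 ∨ ∃ s : ℕ, s.Prime ∧ s ∣ m ∧ y ^ s = 1 := by
  obtain ⟨s, hs, hs2, hys⟩ := hy
  by_cases h : s ∣ m
  · exact Or.inr ⟨s, hs, h, hys⟩
  · left
    refine W629.eq_one_of_coprime (a := s) (b := 2 ^ α * m) ?_ hys (hG y)
    exact Nat.Coprime.mul_right (Nat.Coprime.pow_right _ ((Nat.coprime_primes hs Nat.prime_two).2
      hs2)) ((Nat.Prime.coprime_iff_not_dvd hs).2 h)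

/-- elements of odd prime power order, bounding the exponent -/
theorem opp_cases {m α : ℕ} {G : Type u} [Group G] (hG : ∀ x : G, x ^ (2 ^ α * m) = 1) {y : G}
    (hy : OPP y) : ∃ s k : ℕ, s.Prime ∧ s ^ k ∣ m ∧ y ^ s ^ k = 1 := by
  obtain ⟨s, k, hs, hs2, hys⟩ := hy
  obtain ⟨i, -, hi⟩ := (Nat.dvd_prime_pow hs).1 (orderOf_dvd_of_pow_eq_one hys)
  have h1 := orderOf_dvd_of_pow_eq_one (hG y)
  rw [hi] at h1
  have h2 : Nat.Coprime (s ^ i) (2 ^ α) := Nat.Coprime.pow _ _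
    ((Nat.coprime_primes hs Nat.prime_two).2 hs2)
  exact ⟨s, i, hs, h2.dvd_of_dvd_mul_left h1, by rw [← hi]; exact pow_orderOf_eq_one y⟩

/-- the conditions on the quotients of the free Burnside group -/
structure Cd (m α : ℕ) : Prop where
  c1 : ∀ s : ℕ, s.Prime → s ∣ m → Finite (Bq (2 ^ α * m) s) ∧ Group.IsSolvable (Bq (2 ^ α * m) s)
  c2 : 2 ≤ α → ∀ s k : ℕ, s.Prime → s ^ k ∣ m → Finite (Cq (2 ^ α * m) (2 ^ α) (s ^ k)) ∧
    Group.IsSolvable (Cq (2 ^ α * m) (2 ^ α) (s ^ k))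
  c3 : 3 ≤ α → Finite (Cq (2 ^ α * m) 2 (2 ^ α)) ∧ Group.IsSolvable (Cq (2 ^ α * m) 2 (2 ^ α))

theorem Cd.so {m α : ℕ} (C : Cd m α) (hm : ¬ 2 ∣ m) {G : Type} [Group G]
    (hG : ∀ x : G, x ^ (2 ^ α * m) = 1) : So (2 ^ α * m) m α G := by
  have hn : 2 ^ α * m ≠ 0 := by
    refine Nat.mul_ne_zero (pow_ne_zero _ two_ne_zero) ?_
    rintro rfl
    exact hm (dvd_zero _)
  refine ⟨hm, rfl, hG, fun x y hy => ?_, fun hα x f hx hf => ?_, fun hα w z hw hz => ?_⟩
  · rcases opr_cases hG hy with rfl | ⟨s, hs, hsm, hys⟩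
    · exact c2_one hn (hG x)
    · obtain ⟨f, hf⟩ := bq2 hG x y hys
      exact fs_of_surj (C.c1 s hs hsm) f hf
  · obtain ⟨s, k, hs, hsk, hfk⟩ := opp_cases hG hf
    obtain ⟨φ, hφ⟩ := cq2 hG x f hx hfk
    exact fs_of_surj (C.c2 hα s k hs hsk) φ hφ
  · obtain ⟨φ, hφ⟩ := cq2 hG w z hw hz
    exact fs_of_surj (C.c3 hα) φ hφ

/-- local finiteness -/
theorem locfinO {m α : ℕ} (hm : ¬ 2 ∣ m) (hN : AllNoC m α) (h2 : LocFin (2 ^ α))
    (hmL : LocFin m) (C : Cd m α) : LocFin (2 ^ α * m) := by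
  intro G _ hG
  obtain ⟨M, hM, hML, hMmax⟩ := exists_radical G
  refine x_SCH G M hML ?_
  have h1 : ∀ g : G ⧸ M, g = 1 := trivO α (C.so hm (exp_quot hG M)) hN
    (rad_quot hmL M hML hMmax) (rad_quot h2 M hML hMmax)
  intro S
  have : Subsingleton (G ⧸ M) := ⟨fun a b => by rw [h1 a, h1 b]⟩
  infer_instance

/-- the exponent of the groups `Cq` -/
theorem cq_exp {n r s : ℕ} (x : Cq n r s) : x ^ n = 1 := by
  obtain ⟨w, rfl⟩ := QuotientGroup.mk_surjective x
  rw [← QuotientGroup.mk_pow, QuotientGroup.eq_one_iff]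
  exact Subgroup.subset_normalClosure (Or.inl ⟨w, rfl⟩)

theorem bq_exp {n s : ℕ} (x : Bq n s) : x ^ n = 1 := by
  obtain ⟨w, rfl⟩ := QuotientGroup.mk_surjective x
  rw [← QuotientGroup.mk_pow, QuotientGroup.eq_one_iff]
  exact Subgroup.subset_normalClosure (Or.inl ⟨w, rfl⟩)

theorem cq_finite {n : ℕ} (h : LocFin n) (r s : ℕ) : Finite (Cq n r s) := by
  have h1 : Finite (Bu 2 n) := x_LFD.2.1 n 2 h
  have hle : Subgroup.normalClosure (Set.range fun w : FreeGroup (Fin 2) => w ^ n) ≤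
      (QuotientGroup.mk' (Subgroup.normalClosure
        ((Set.range fun w : FreeGroup (Fin 2) => w ^ n) ∪
          {FreeGroup.of 0 ^ r, FreeGroup.of 1 ^ s}))).ker := by
    rw [QuotientGroup.ker_mk']
    exact Subgroup.normalClosure_mono Set.subset_union_left
  refine Finite.of_surjective (QuotientGroup.lift _ (QuotientGroup.mk' (Subgroup.normalClosure
    ((Set.range fun w : FreeGroup (Fin 2) => w ^ n) ∪ {FreeGroup.of 0 ^ r, FreeGroup.of 1 ^ s})))
    (fun w hw => hle hw)) ?_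
  intro y
  obtain ⟨w, rfl⟩ := QuotientGroup.mk_surjective y
  exact ⟨(QuotientGroup.mk w), rfl⟩

/-- the conditions for two primes -/
theorem cd_q {q b α : ℕ} (hq : q.Prime) (f1 : Finite (Bq (2 ^ α * q ^ b) q))
    (f2 : 2 ≤ α → Finite (Cq (2 ^ α * q ^ b) (2 ^ α) (q ^ b)))
    (f3 : 3 ≤ α → Finite (Cq (2 ^ α * q ^ b) 2 (2 ^ α))) : Cd (q ^ b) α := by
  have key : ∀ {H : Type} [Group H], (∀ x : H, x ^ (2 ^ α * q ^ b) = 1) → Finite H →
      Finite H ∧ Group.IsSolvable H := fun hH hf =>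
    ⟨hf, solv_of_exp 2 q α b Nat.prime_two hq hH⟩
  refine ⟨fun s hs hsm => ?_, fun hα s k hs hsk => ?_, fun hα => key cq_exp (f3 hα)⟩
  · have e : s = q := (Nat.prime_dvd_prime_iff_eq hs hq).1 (hs.dvd_of_dvd_pow hsm)
    subst e
    exact key bq_exp f1
  · have h2 := f2 hα
    have e : s ^ k ∣ q ^ b := hsk
    -- the group is a quotient
    have hsurj : ∃ f : Cq (2 ^ α * q ^ b) (2 ^ α) (q ^ b) →*
        Cq (2 ^ α * q ^ b) (2 ^ α) (s ^ k), Function.Surjective f := by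
      have hle : Subgroup.normalClosure
          ((Set.range fun w : FreeGroup (Fin 2) => w ^ (2 ^ α * q ^ b)) ∪
            {FreeGroup.of 0 ^ 2 ^ α, FreeGroup.of 1 ^ q ^ b}) ≤
          (QuotientGroup.mk' (Subgroup.normalClosure
            ((Set.range fun w : FreeGroup (Fin 2) => w ^ (2 ^ α * q ^ b)) ∪
              {FreeGroup.of 0 ^ 2 ^ α, FreeGroup.of 1 ^ s ^ k}))).ker := by
        rw [QuotientGroup.ker_mk']
        apply Subgroup.normalClosure_le_normal
        rintro _ (⟨w, rfl⟩ | rfl | h)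
        · exact Subgroup.subset_normalClosure (Or.inl ⟨w, rfl⟩)
        · exact Subgroup.subset_normalClosure (Or.inr (Or.inl rfl))
        · rw [Set.mem_singleton_iff.1 h]
          obtain ⟨c, hc⟩ := e
          rw [hc, pow_mul]
          have h0 : (FreeGroup.of 1 : FreeGroup (Fin 2)) ^ s ^ k ∈ Subgroup.normalClosure
            ((Set.range fun w : FreeGroup (Fin 2) => w ^ (2 ^ α * (s ^ k * c))) ∪
              {FreeGroup.of 0 ^ 2 ^ α, FreeGroup.of 1 ^ s ^ k}) :=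
            Subgroup.subset_normalClosure (Or.inr (Or.inr rfl))
          exact pow_mem h0 c
      refine ⟨QuotientGroup.lift _ _ (fun w hw => hle hw), ?_⟩
      intro y
      obtain ⟨w, rfl⟩ := QuotientGroup.mk_surjective y
      exact ⟨(QuotientGroup.mk w), rfl⟩
    obtain ⟨f, hf⟩ := hsurj
    exact key cq_exp (Finite.of_surjective f hf)

/-- the conditions on the group for two primes -/
theorem hy_q {q b α : ℕ} (hq : q.Prime) (G : Type u) [Group G]
    (hG : ∀ x : G, x ^ (2 ^ α * q ^ b) = 1)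
    (f1 : ∀ x y : G, y ^ q = 1 → Finite (Subgroup.closure {x, y}))
    (f2 : 2 ≤ α → ∀ x f : G, x ^ 2 ^ α = 1 → f ^ q ^ b = 1 → Finite (Subgroup.closure {x, f}))
    (f3 : 3 ≤ α → ∀ w z : G, w ^ 2 = 1 → z ^ 2 ^ α = 1 → Finite (Subgroup.closure {w, z})) :
    Hy (q ^ b) α G := by
  have key : ∀ K : Subgroup G, Finite K → Finite K ∧ Group.IsSolvable K := by
    intro K hK
    refine ⟨hK, ?_⟩
    have e : Shrink.{0} K ≃* K := Shrink.mulEquiv
    have hS : Group.IsSolvable (Shrink.{0} K) := by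
      have : Finite (Shrink.{0} K) := Finite.of_equiv _ e.symm.toEquiv
      refine solv_of_exp 2 q α b Nat.prime_two hq fun x => ?_
      apply e.injective
      rw [map_pow, map_one]
      exact Subtype.ext (hG _)
    exact Group.isSolvable_of_surjective (f := e.toMonoidHom) e.surjective
  refine ⟨hG, fun x y hy => key _ ?_, fun hα x f hx hf => key _ ?_, fun hα w z hw hz =>
    key _ (f3 hα w z hw hz)⟩
  · rcases opr_cases hG hy with rfl | ⟨s, hs, hsm, hys⟩
    · exact f1 x 1 (one_pow _)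
    · have e : s = q := (Nat.prime_dvd_prime_iff_eq hs hq).1 (hs.dvd_of_dvd_pow hsm)
      subst e
      exact f1 x y hys
  · obtain ⟨s, k, hs, hsk, hfk⟩ := opp_cases hG hf
    obtain ⟨c, hc⟩ := hsk
    exact f2 hα x f hx (by rw [hc, pow_mul, hfk, one_pow])

end Pool.Agent.V5helper30.OP
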