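import Mathlib
import Pool.Agent.V5helper30.OP.Main

set_option autoImplicit false

/-!
# One generator of odd prime power order: local finiteness of groups
-/

namespace Pool.Agent.V5helper30.OP

open Pool.Agent.H32BU Pool.Agent.W629 Pool.Agent.TH69.Mtn Pool.Agent.TH69.Od Pool.Agent.TH69.Og
open Pool.Agent.TH69.Oh Pool.Agent.TH69.Ok Pool.Agent.TH69.Pq Pool.Agent.N6.Pf
open Pool.Agent.N6.Pg (Cq cq2 rad_quot Ne)

universe u

theorem locfin_two {α : ℕ} (hα : α ≤ 2) : LocFin (2 ^ α) := by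
  intro G _ hG
  refine x_L34.2 G fun x => ?_
  obtain ⟨c, hc⟩ : 2 ^ α ∣ 4 := (pow_dvd_pow 2 hα : 2 ^ α ∣ 2 ^ 2)
  rw [hc, pow_mul, hG, one_pow]

/-- subgroups of quotients -/
theorem fs_quot {G : Type} [Group G] (M : Subgroup G) [M.Normal] {x y : G}
    (h : Finite (c2 x y) ∧ Group.IsSolvable (c2 x y)) :
    Finite (c2 (x : G ⧸ M) (y : G ⧸ M)) ∧ Group.IsSolvable (c2 (x : G ⧸ M) (y : G ⧸ M)) := by
  have hmap : (c2 x y).map (QuotientGroup.mk' M) = c2 (x : G ⧸ M) (y : G ⧸ M) := map_c2 _ x y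
  obtain ⟨h1, h2⟩ := h
  rw [← hmap]
  exact ⟨Finite.of_surjective _ ((QuotientGroup.mk' M).subgroupMap_surjective (c2 x y)),
    Group.isSolvable_of_surjective ((QuotientGroup.mk' M).subgroupMap_surjective (c2 x y))⟩

/-- local finiteness -/
theorem lfO {m α : ℕ} (hm : ¬ 2 ∣ m) (hN : AllNoC m α) (h2 : LocFin (2 ^ α)) (hmL : LocFin m)
    (G : Type) [Group G] (hG : ∀ x : G, x ^ (2 ^ α * m) = 1)
    (h : ∀ x y : G, OPP y → Finite (c2 x y) ∧ Group.IsSolvable (c2 x y))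
    (h3 : 3 ≤ α → ∀ w z : G, w ^ 2 ^ α = 1 → z ^ 2 ^ α = 1 →
      Finite (c2 w z) ∧ Group.IsSolvable (c2 w z)) : LF G := by
  obtain ⟨M, hM, hML, hMmax⟩ := exists_radical G
  have hn : 2 ^ α * m ≠ 0 := by
    refine Nat.mul_ne_zero (pow_ne_zero _ two_ne_zero) ?_
    rintro rfl
    exact hm (dvd_zero _)
  refine x_SCH G M hML ?_
  have lift : ∀ y : G ⧸ M, OPP y → ∃ y' : G, OPP y' ∧ (y' : G ⧸ M) = y := by
    rintro y ⟨s, k, hs, hs2, hys⟩
    obtain ⟨y', hy', e⟩ := lift_pp (QuotientGroup.mk' M) (QuotientGroup.mk'_surjective M) hn hG hs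
      hys
    exact ⟨y', ⟨s, _, hs, hs2, hy'⟩, e⟩
  have lift2 : ∀ y : G ⧸ M, y ^ 2 ^ α = 1 → ∃ y' : G, y' ^ 2 ^ α = 1 ∧ (y' : G ⧸ M) = y := by
    intro y hy
    obtain ⟨y0, rfl⟩ := QuotientGroup.mk_surjective y
    obtain ⟨a, -, ⟨a', ha'⟩, -, ha, -, -⟩ := crt (show Nat.Coprime m (2 ^ α) from
      (Nat.Coprime.pow_left _ ((Nat.Prime.coprime_iff_not_dvd Nat.prime_two).2 hm)).symm)
    refine ⟨y0 ^ a, ?_, ?_⟩
    · rw [ha', ← pow_mul, show m * a' * 2 ^ α = (2 ^ α * m) * a' from by ring, pow_mul, hG,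
        one_pow]
    · rw [QuotientGroup.mk_pow]
      exact ha _ hy
  have hS : So (2 ^ α * m) m α (G ⧸ M) := by
    refine ⟨hm, rfl, exp_quot hG M, fun x y hy => ?_, fun _ x f hx hf => ?_,
      fun hα w z hw hz => ?_⟩
    · obtain ⟨x, rfl⟩ := QuotientGroup.mk_surjective x
      obtain ⟨y', hy', rfl⟩ := lift y hy.opp
      exact fs_quot M (h x y' hy')
    · obtain ⟨x, rfl⟩ := QuotientGroup.mk_surjective x
      obtain ⟨y', hy', rfl⟩ := lift f hf
      exact fs_quot M (h x y' hy')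
    · obtain ⟨w', hw', rfl⟩ := lift2 w (by
        obtain ⟨c, hc⟩ : 2 ∣ 2 ^ α := dvd_pow_self 2 (by omega)
        rw [hc, pow_mul, hw, one_pow])
      obtain ⟨z', hz', rfl⟩ := lift2 z hz
      exact fs_quot M (h3 hα w' z' hw' hz')
  have h1 : ∀ g : G ⧸ M, g = 1 := trivO α hS hN (rad_quot hmL M hML hMmax)
    (rad_quot h2 M hML hMmax)
  intro S
  have : Subsingleton (G ⧸ M) := ⟨fun a b => by rw [h1 a, h1 b]⟩
  infer_instance

/-- local finiteness, all universes -/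
theorem lfO_u {m α : ℕ} (hm : ¬ 2 ∣ m) (hN : AllNoC m α) (h2 : LocFin (2 ^ α)) (hmL : LocFin m)
    (G : Type u) [Group G] (hG : ∀ x : G, x ^ (2 ^ α * m) = 1)
    (h : ∀ x y : G, OPP y → Finite (Subgroup.closure {x, y}) ∧
      Group.IsSolvable (Subgroup.closure {x, y}))
    (h3 : 3 ≤ α → ∀ w z : G, w ^ 2 ^ α = 1 → z ^ 2 ^ α = 1 →
      Finite (Subgroup.closure {w, z}) ∧ Group.IsSolvable (Subgroup.closure {w, z}))
    (S : Set G) (hS : S.Finite) : Finite (Subgroup.closure S) :=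
  finite_closure_u S hS fun Q _ f hf => lfO hm hN h2 hmL Q
    (fun x => hf (by rw [map_pow, map_one]; exact hG _))
    (fun x y hy => fs_transfer f hf x y (h _ _ (hy.map' f)))
    (fun hα w z hw hz => fs_transfer f hf w z (h3 hα _ _ (by rw [← map_pow, hw, map_one])
      (by rw [← map_pow, hz, map_one])))

/-- finite groups with two prime divisors are soluble, all universes -/
theorem sol_q {q a b : ℕ} (hq : q.Prime) {G : Type u} [Group G]
    (hG : ∀ x : G, x ^ (2 ^ a * q ^ b) = 1) (K : Subgroup G) (hK : Finite K) :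
    Finite K ∧ Group.IsSolvable K := by
  refine ⟨hK, ?_⟩
  have e : Shrink.{0} K ≃* K := Shrink.mulEquiv
  have hS : Group.IsSolvable (Shrink.{0} K) := by
    have : Finite (Shrink.{0} K) := Finite.of_equiv _ e.symm.toEquiv
    refine solv_of_exp 2 q a b Nat.prime_two hq fun x => ?_
    apply e.injective
    rw [map_pow, map_one]
    exact Subtype.ext (hG _)
  exact Group.isSolvable_of_surjective (f := e.toMonoidHom) e.surjective

/-- local finiteness for two primes -/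
theorem lfO_q {q a b : ℕ} (hq : q.Prime) (hq2 : q ≠ 2) (hE : Ne q a b) (h2 : LocFin (2 ^ a))
    (hqL : LocFin (q ^ b)) (G : Type u) [Group G] (hG : ∀ x : G, x ^ (2 ^ a * q ^ b) = 1)
    (h : ∀ x y : G, y ^ q ^ b = 1 → Finite (Subgroup.closure {x, y}))
    (h3 : 3 ≤ a → ∀ w z : G, w ^ 2 ^ a = 1 → z ^ 2 ^ a = 1 → Finite (Subgroup.closure {w, z}))
    (S : Set G) (hS : S.Finite) : Finite (Subgroup.closure S) := by
  refine lfO_u ?_ (allNoC_q hq hq2 hE) h2 hqL G hG (fun x y hy => sol_q hq hG _ ?_)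
    (fun ha w z hw hz => sol_q hq hG _ (h3 ha w z hw hz)) S hS
  · intro hd
    exact hq2 ((Nat.prime_dvd_prime_iff_eq Nat.prime_two hq).1
      (Nat.prime_two.dvd_of_dvd_pow hd)).symm
  · obtain ⟨s, k, hs, hsk, hfk⟩ := opp_cases hG hy
    obtain ⟨c, hc⟩ := hsk
    exact h x y (by rw [hc, pow_mul, hfk, one_pow])

end Pool.Agent.V5helper30.OP
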